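import Mathlib

/-!
# MP_b733c5_pr : definitions

Random walks on `ℤ^d`, capacity, range, asymptotic capacity of the range.
-/

open MeasureTheory Filter Topology

namespace AsympCap

/-- The set of unit steps `{±e_1, …, ±e_d} ⊂ ℤ^d`. -/
def nnSteps (d : ℕ) : Finset (Fin d → ℤ) :=
  Finset.univ.image (fun k => Pi.single k 1) ∪ Finset.univ.image (fun k => Pi.single k (-1))

variable {d : ℕ} {S : Finset (Fin d → ℤ)}

/-- `Δ_S`: the probability vectors `(μ(s))_{s ∈ S}` all of whose entries are positive, i.e. the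
probability measures on `ℤ^d` with support exactly `S`. -/
def Delta (S : Finset (Fin d → ℤ)) : Set (S → ℝ) :=
  {μ | (∀ s, 0 < μ s) ∧ ∑ s, μ s = 1}

/-- The measure `∑_{s ∈ S} μ(s) δ_s` on `ℤ^d`. -/
noncomputable def stepLaw (μ : S → ℝ) : Measure (Fin d → ℤ) :=
  ∑ s : S, ENNReal.ofReal (μ s) • Measure.dirac (s : Fin d → ℤ)

/-- The law of the sequence of i.i.d. increments of the `μ`-random walk. -/
noncomputable def incLaw (μ : S → ℝ) : Measure (ℕ → Fin d → ℤ) :=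
  Measure.infinitePi (fun _ => stepLaw μ)

/-- The walk `X_n = x + ξ_1 + ⋯ + ξ_n` with increments `ξ_{i+1} = ω i`. -/
def walk (x : Fin d → ℤ) (ω : ℕ → Fin d → ℤ) (n : ℕ) : Fin d → ℤ :=
  x + ∑ i ∈ Finset.range n, ω i

/-- `Cap_μ(A) = ∑_{x ∈ A} P_x[X_m ∉ A for all m ≥ 1]`. -/
noncomputable def capacity (μ : S → ℝ) (A : Finset (Fin d → ℤ)) : ℝ :=
  ∑ x ∈ A, (incLaw μ).real {ω | ∀ m, 1 ≤ m → walk x ω m ∉ A}

/-- The range `R_n = {X_0, …, X_n}` of the walk started at `0`. -/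
def walkRange (ω : ℕ → Fin d → ℤ) (n : ℕ) : Finset (Fin d → ℤ) :=
  (Finset.range (n + 1)).image (walk 0 ω)

/-- `c : Δ_S → ℝ` is the asymptotic capacity of the range: for every `μ ∈ Δ_S`, almost surely
`Cap_μ(R_n) / n → c(μ)`. (The values of `c` outside `Δ_S` are irrelevant.) -/
def IsAsymptoticCapacity (S : Finset (Fin d → ℤ)) (c : (S → ℝ) → ℝ) : Prop :=
  ∀ μ ∈ Delta S, ∀ᵐ ω ∂(incLaw μ),
    Tendsto (fun n : ℕ => capacity μ (walkRange ω n) / n) atTop (𝓝 (c μ))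

/-- `c : Δ_S → ℝ` is the asymptotic mean capacity of the range: for every `μ ∈ Δ_S`,
`E_μ[Cap_μ(R_n)] / n → c(μ)`. As `0 ≤ Cap_μ(R_n) ≤ n + 1`, the almost sure asymptotic capacity,
where it exists, is also the asymptotic mean capacity. -/
def IsMeanAsymptoticCapacity (S : Finset (Fin d → ℤ)) (c : (S → ℝ) → ℝ) : Prop :=
  ∀ μ ∈ Delta S,
    Tendsto (fun n : ℕ => (∫ ω, capacity μ (walkRange ω n) ∂(incLaw μ)) / n) atTop (𝓝 (c μ))

/-- The point of the hyperplane `∑_s μ(s) = 1` with prescribed coordinates `μ(s) = a(s)` for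
`s ≠ s₀`. -/
noncomputable def chart (s₀ : S) (a : {s : S // s ≠ s₀} → ℝ) : S → ℝ :=
  fun s => if h : s = s₀ then 1 - ∑ s', a s' else a ⟨s, h⟩

/-- `c` is real-analytic on `Δ_S`, as a function of the affine coordinates `(μ(s))_{s ≠ s₀}` (all
but one of the `μ(s)`), for some choice of `s₀ ∈ S`. -/
def RealAnalyticOnDelta (S : Finset (Fin d → ℤ)) (c : (S → ℝ) → ℝ) : Prop :=
  ∃ s₀ : S, AnalyticOnNhd ℝ (fun a => c (chart s₀ a)) {a | chart s₀ a ∈ Delta S}

end AsympCap
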