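import Mathlib

/-!
# Finite-range random walks: transition operator, escape functions, last exit identity
-/

open Filter Topology

namespace AsympCap

variable {V ι : Type*} [AddCommGroup V] [Fintype ι] (v : ι → V) (w : ι → ℝ)

/-- The transition operator `P f (x) = ∑ i, w i * f (x + v i)`. -/
noncomputable def P : Module.End ℝ (V → ℝ) where
  toFun f x := ∑ i, w i * f (x + v i)
  map_add' f g := by
    funext x; simp [mul_add, Finset.sum_add_distrib]
  map_smul' c f := by
    funext x; simp [Finset.mul_sum, mul_left_comm]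

lemma P_apply (f : V → ℝ) (x : V) : P v w f x = ∑ i, w i * f (x + v i) := rfl

lemma P_mono (hw : ∀ i, 0 ≤ w i) {f g : V → ℝ} (h : ∀ x, f x ≤ g x) (x : V) :
    P v w f x ≤ P v w g x := by
  simp only [P_apply]
  exact Finset.sum_le_sum fun i _ => mul_le_mul_of_nonneg_left (h _) (hw i)

lemma P_const (hw1 : ∑ i, w i = 1) (c : ℝ) (x : V) : P v w (fun _ => c) x = c := by
  simp [P_apply, ← Finset.sum_mul, hw1]

lemma Pn_succ (n : ℕ) (f : V → ℝ) : ((P v w) ^ (n + 1)) f = P v w (((P v w) ^ n) f) := by
  rw [pow_succ']; rfl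

lemma Pn_succ' (n : ℕ) (f : V → ℝ) : ((P v w) ^ (n + 1)) f = ((P v w) ^ n) (P v w f) := by
  rw [pow_succ]; rfl

lemma Pn_mono (hw : ∀ i, 0 ≤ w i) (n : ℕ) {f g : V → ℝ} (h : ∀ x, f x ≤ g x) (x : V) :
    ((P v w) ^ n) f x ≤ ((P v w) ^ n) g x := by
  induction n generalizing x with
  | zero => simpa using h x
  | succ n ih => rw [Pn_succ, Pn_succ]; exact P_mono v w hw ih x

lemma Pn_nonneg (hw : ∀ i, 0 ≤ w i) (n : ℕ) {f : V → ℝ} (h : ∀ x, 0 ≤ f x) (x : V) :
    0 ≤ ((P v w) ^ n) f x := by
  have := Pn_mono v w hw n (f := 0) (g := f) (by simpa using h) x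
  simpa using this

lemma Pn_translate (n : ℕ) (f : V → ℝ) (y x : V) :
    ((P v w) ^ n) (fun z => f (z - y)) x = ((P v w) ^ n) f (x - y) := by
  induction n generalizing x with
  | zero => simp
  | succ n ih =>
    rw [Pn_succ, Pn_succ, P_apply, P_apply]
    refine Finset.sum_congr rfl fun i _ => ?_
    rw [ih, add_sub_right_comm]

section Esc

variable [DecidableEq V]

/-- The indicator of the origin. -/
def delta0 : V → ℝ := fun z => if z = 0 then 1 else 0

/-- `g m z` : probability of being at `0` at time `m` when starting from `z`. -/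
noncomputable def g (m : ℕ) : V → ℝ := ((P v w) ^ m) delta0

/-- `u A n x = P_x[X_k ∉ A for 1 ≤ k ≤ n]`. -/
noncomputable def u (A : Finset V) : ℕ → V → ℝ
  | 0 => fun _ => 1
  | n + 1 => P v w (fun y => if y ∈ A then 0 else u A n y)

variable (A : Finset V)

lemma u_zero : u v w A 0 = fun _ => 1 := rfl
lemma u_succ (n : ℕ) : u v w A (n + 1) = P v w (fun y => if y ∈ A then 0 else u v w A n y) := rfl

lemma g_nonneg (hw : ∀ i, 0 ≤ w i) (m : ℕ) (z : V) : 0 ≤ g v w m z :=
  Pn_nonneg v w hw m (fun x => by unfold delta0; split_ifs <;> norm_num) z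

lemma u_nonneg (hw : ∀ i, 0 ≤ w i) (n : ℕ) (x : V) : 0 ≤ u v w A n x := by
  induction n generalizing x with
  | zero => simp [u_zero]
  | succ n ih =>
    rw [u_succ, P_apply]
    refine Finset.sum_nonneg fun i _ => mul_nonneg (hw i) ?_
    split_ifs <;> simp [ih]

lemma u_le_one (hw : ∀ i, 0 ≤ w i) (hw1 : ∑ i, w i = 1) (n : ℕ) (x : V) :
    u v w A n x ≤ 1 := by
  induction n generalizing x with
  | zero => simp [u_zero]
  | succ n ih =>
    rw [u_succ]
    calc _ ≤ P v w (fun _ => 1) x := P_mono v w hw (fun y => by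
            split_ifs
            · norm_num
            · exact ih y) x
      _ = 1 := P_const v w hw1 1 x

lemma u_succ_le (hw : ∀ i, 0 ≤ w i) (hw1 : ∑ i, w i = 1) (n : ℕ) (x : V) :
    u v w A (n + 1) x ≤ u v w A n x := by
  induction n generalizing x with
  | zero => simpa [u_zero] using u_le_one v w A hw hw1 1 x
  | succ n ih =>
    rw [u_succ v w A (n + 1), u_succ v w A n]
    exact P_mono v w hw (fun y => by
      split_ifs
      · exact le_refl _
      · exact ih y) x

lemma u_antitone (hw : ∀ i, 0 ≤ w i) (hw1 : ∑ i, w i = 1) (x : V) :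
    Antitone (fun n => u v w A n x) :=
  antitone_nat_of_succ_le fun n => u_succ_le v w A hw hw1 n x

/-- finite horizon last exit identity -/
lemma last_exit_finite (hw1 : ∑ i, w i = 1) (N : ℕ) (x : V) :
    ∑ m ∈ Finset.range (N + 1),
      ((P v w) ^ m) (fun y => if y ∈ A then u v w A (N - m) y else 0) x =
    1 - (if x ∈ A then 0 else u v w A N x) := by
  induction N generalizing x with
  | zero =>
    simp only [zero_add, Finset.range_one, Finset.sum_singleton, pow_zero, Module.End.one_apply]
    split_ifs <;> simp [u_zero]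
  | succ N ih =>
    rw [Finset.sum_range_succ']
    have h1 : ∀ m ∈ Finset.range (N + 1),
        ((P v w) ^ (m + 1)) (fun y => if y ∈ A then u v w A (N + 1 - (m + 1)) y else 0) x =
        P v w (((P v w) ^ m) (fun y => if y ∈ A then u v w A (N - m) y else 0)) x := by
      intro m _
      rw [Pn_succ, Nat.add_sub_add_right]
    rw [Finset.sum_congr rfl h1]
    have h2 : ∑ m ∈ Finset.range (N + 1),
        P v w (((P v w) ^ m) (fun y => if y ∈ A then u v w A (N - m) y else 0)) x =
        P v w (fun z => 1 - (if z ∈ A then 0 else u v w A N z)) x := by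
      have : (fun z => 1 - (if z ∈ A then 0 else u v w A N z)) = fun z =>
        ∑ m ∈ Finset.range (N + 1),
      ((P v w) ^ m) (fun y => if y ∈ A then u v w A (N - m) y else 0) z := by
        funext z; exact (ih z).symm
      rw [this]
      simp only [P_apply, Finset.mul_sum]
      rw [Finset.sum_comm]
    rw [h2]
    have h3 : P v w (fun z => 1 - (if z ∈ A then 0 else u v w A N z)) x =
        1 - u v w A (N + 1) x := by
      rw [u_succ]
      simp only [P_apply, mul_sub, Finset.sum_sub_distrib, mul_one, hw1]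
    rw [h3]
    simp only [pow_zero, Module.End.one_apply, Nat.sub_zero]
    split_ifs <;> ring

lemma Pn_restrict (m : ℕ) (f : V → ℝ) (x : V) :
    ((P v w) ^ m) (fun y => if y ∈ A then f y else 0) x =
    ∑ y ∈ A, f y * g v w m (x - y) := by
  have h : (fun y => if y ∈ A then f y else 0) =
      ∑ y ∈ A, f y • (fun z : V => (delta0 (z - y) : ℝ)) := by
    funext z
    simp only [Finset.sum_apply, Pi.smul_apply, delta0, smul_eq_mul, sub_eq_zero, mul_ite,
      mul_one, mul_zero]
    rw [Finset.sum_ite_eq]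
  rw [h, map_sum, Finset.sum_apply]
  refine Finset.sum_congr rfl fun y _ => ?_
  rw [map_smul, Pi.smul_apply, Pn_translate, smul_eq_mul]
  rfl

/-- last exit identity written with `g`. -/
lemma last_exit_finite' (hw1 : ∑ i, w i = 1) (N : ℕ) {x : V} (hx : x ∈ A) :
    ∑ y ∈ A, ∑ m ∈ Finset.range (N + 1), g v w m (x - y) * u v w A (N - m) y = 1 := by
  have := last_exit_finite v w A hw1 N x
  rw [if_pos hx, sub_zero] at this
  rw [← this, Finset.sum_comm]
  refine Finset.sum_congr rfl fun m _ => ?_
  rw [Pn_restrict]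
  exact Finset.sum_congr rfl fun y _ => mul_comm _ _

/-- The escape probability (defined as the limit/infimum). -/
noncomputable def esc (x : V) : ℝ := ⨅ n, u v w A n x

lemma esc_tendsto (hw : ∀ i, 0 ≤ w i) (hw1 : ∑ i, w i = 1) (x : V) :
    Tendsto (fun n => u v w A n x) atTop (𝓝 (esc v w A x)) :=
  tendsto_atTop_ciInf (u_antitone v w A hw hw1 x)
    ⟨0, by rintro _ ⟨n, rfl⟩; exact u_nonneg v w A hw n x⟩

lemma esc_le_u (hw : ∀ i, 0 ≤ w i) (n : ℕ) (x : V) : esc v w A x ≤ u v w A n x :=
  ciInf_le ⟨0, by rintro _ ⟨n, rfl⟩; exact u_nonneg v w A hw n x⟩ n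

lemma esc_nonneg (hw : ∀ i, 0 ≤ w i) (x : V) : 0 ≤ esc v w A x :=
  le_ciInf fun n => u_nonneg v w A hw n x

lemma esc_le_one (hw : ∀ i, 0 ≤ w i) (x : V) : esc v w A x ≤ 1 := by
  simpa [u_zero] using esc_le_u v w A hw 0 x

/-- upper bound in the last exit decomposition, truncated Green function. -/
lemma last_exit_le (hw : ∀ i, 0 ≤ w i) (hw1 : ∑ i, w i = 1) (M : ℕ) {x : V} (hx : x ∈ A) :
    ∑ y ∈ A, (∑ m ∈ Finset.range (M + 1), g v w m (x - y)) * esc v w A y ≤ 1 := by
  rw [← last_exit_finite' v w A hw1 M hx]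
  refine Finset.sum_le_sum fun y _ => ?_
  rw [Finset.sum_mul]
  exact Finset.sum_le_sum fun m _ =>
    mul_le_mul_of_nonneg_left (esc_le_u v w A hw _ y) (g_nonneg v w hw m _)

/-- Green function. `Gr z` is the expected number of visits to `0` from `z`. -/
noncomputable def Gr (z : V) : ℝ := ∑' m, g v w m z

lemma last_exit_le' (hw : ∀ i, 0 ≤ w i) (hw1 : ∑ i, w i = 1)
    (hs : ∀ z, Summable fun m => g v w m z) {x : V} (hx : x ∈ A) :
    ∑ y ∈ A, Gr v w (x - y) * esc v w A y ≤ 1 := by
  have h : Tendsto (fun M : ℕ => ∑ y ∈ A, (∑ m ∈ Finset.range (M + 1), g v w m (x - y)) *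
      esc v w A y) atTop (𝓝 (∑ y ∈ A, Gr v w (x - y) * esc v w A y)) := by
    refine tendsto_finsetSum _ fun y _ => Tendsto.mul_const _ ?_
    exact ((hs (x - y)).hasSum.tendsto_sum_nat).comp (tendsto_add_atTop_nat 1)
  exact le_of_tendsto' h fun M => last_exit_le v w A hw hw1 M hx

lemma one_le_last_exit (hw : ∀ i, 0 ≤ w i) (hw1 : ∑ i, w i = 1)
    (hs : ∀ z, Summable fun m => g v w m z) {x : V} (hx : x ∈ A) :
    ∑ y ∈ A, Gr v w (x - y) * esc v w A y = 1 := by
  have h : Tendsto (fun N : ℕ => ∑ y ∈ A, ∑ m ∈ Finset.range (N + 1),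
      g v w m (x - y) * u v w A (N - m) y) atTop
      (𝓝 (∑ y ∈ A, Gr v w (x - y) * esc v w A y)) := by
    refine tendsto_finsetSum _ fun y _ => ?_
    have h1 : Tendsto (fun N : ℕ => ∑' m, (if m ∈ Finset.range (N + 1) then
        g v w m (x - y) * u v w A (N - m) y else 0)) atTop
        (𝓝 (∑' m, g v w m (x - y) * esc v w A y)) := by
      refine tendsto_tsum_of_dominated_convergence (hs (x - y)) ?_ ?_
      · intro m
        have : Tendsto (fun N : ℕ => g v w m (x - y) * u v w A (N - m) y) atTop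
            (𝓝 (g v w m (x - y) * esc v w A y)) :=
          ((esc_tendsto v w A hw hw1 y).comp (tendsto_sub_atTop_nat m)).const_mul _
        refine this.congr' ?_
        filter_upwards [eventually_ge_atTop m] with N hN
        rw [if_pos (Finset.mem_range.2 (by omega))]
      · refine Eventually.of_forall fun N m => ?_
        split_ifs
        · rw [Real.norm_eq_abs, abs_of_nonneg (mul_nonneg (g_nonneg v w hw m _)
            (u_nonneg v w A hw _ _))]
          exact mul_le_of_le_one_right (g_nonneg v w hw m _) (u_le_one v w A hw hw1 _ _)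
        · simpa using g_nonneg v w hw m (x - y)
    rw [tsum_mul_right] at h1
    refine h1.congr fun N => ?_
    rw [tsum_eq_sum (s := Finset.range (N + 1))]
    · exact Finset.sum_congr rfl fun m hm => by rw [if_pos hm]
    · intro m hm; rw [if_neg hm]
  refine tendsto_nhds_unique h ?_
  simp_rw [fun N => last_exit_finite' v w A hw1 N hx]
  exact tendsto_const_nhds

end Esc

end AsympCap
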