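import Mathlib
import Pool.Agent.W_MP_b733c5_pr.Walk

/-!
# Expectations of functions of the first `n` steps, as finite sums
-/

open Filter Topology

namespace AsympCap

variable {V ι : Type*} [AddCommGroup V] [Fintype ι] (v : ι → V) (w : ι → ℝ)

/-- prepend a step -/
def cns (s : V) (ω : ℕ → V) : ℕ → V
  | 0 => s
  | n + 1 => ω n

omit [AddCommGroup V] in
@[simp] lemma cns_zero (s : V) (ω : ℕ → V) : cns s ω 0 = s := rfl
omit [AddCommGroup V] in
@[simp] lemma cns_succ (s : V) (ω : ℕ → V) (n : ℕ) : cns s ω (n + 1) = ω n := rfl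

/-- expectation of a function of the first `n` increments -/
noncomputable def E : ℕ → ((ℕ → V) → ℝ) → ℝ
  | 0, F => F 0
  | n + 1, F => ∑ i, w i * E n (fun ω => F (cns (v i) ω))

lemma E_zero (F : (ℕ → V) → ℝ) : E v w 0 F = F 0 := rfl
lemma E_succ (n : ℕ) (F : (ℕ → V) → ℝ) :
    E v w (n + 1) F = ∑ i, w i * E v w n (fun ω => F (cns (v i) ω)) := rfl

lemma E_add (n : ℕ) (F G : (ℕ → V) → ℝ) :
    E v w n (fun ω => F ω + G ω) = E v w n F + E v w n G := by
  induction n generalizing F G with
  | zero => rfl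
  | succ n ih => simp only [E_succ, ih, mul_add, Finset.sum_add_distrib]

lemma E_mul_left (n : ℕ) (c : ℝ) (F : (ℕ → V) → ℝ) :
    E v w n (fun ω => c * F ω) = c * E v w n F := by
  induction n generalizing F with
  | zero => rfl
  | succ n ih => simp only [E_succ, ih, Finset.mul_sum, mul_left_comm]

lemma E_const (hw1 : ∑ i, w i = 1) (n : ℕ) (c : ℝ) :
    E v w n (fun _ => c) = c := by
  induction n with
  | zero => rfl
  | succ n ih => simp only [E_succ, ih, ← Finset.sum_mul, hw1, one_mul]

lemma E_sum {κ : Type*} (s : Finset κ) (n : ℕ) (F : κ → (ℕ → V) → ℝ) :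
    E v w n (fun ω => ∑ k ∈ s, F k ω) = ∑ k ∈ s, E v w n (F k) := by
  classical
  induction s using Finset.induction_on with
  | empty =>
    simp only [Finset.sum_empty]
    have := E_mul_left v w n 0 (fun _ => 0)
    simpa using this
  | insert a s ha ih =>
    simp only [Finset.sum_insert ha, E_add, ih]

lemma E_mono (hw : ∀ i, 0 ≤ w i) (n : ℕ) {F G : (ℕ → V) → ℝ} (h : ∀ ω, F ω ≤ G ω) :
    E v w n F ≤ E v w n G := by
  induction n generalizing F G with
  | zero => exact h 0
  | succ n ih =>
    simp only [E_succ]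
    exact Finset.sum_le_sum fun i _ => mul_le_mul_of_nonneg_left (ih fun ω => h _) (hw i)

/-- partial sums -/
def X (ω : ℕ → V) (k : ℕ) : V := ∑ i ∈ Finset.range k, ω i

@[simp] lemma X_zero (ω : ℕ → V) : X ω 0 = 0 := by simp [X]
lemma X_succ (ω : ℕ → V) (k : ℕ) : X ω (k + 1) = X ω k + ω k := by
  simp [X, Finset.sum_range_succ]
lemma X_cns (s : V) (ω : ℕ → V) (k : ℕ) : X (cns s ω) (k + 1) = s + X ω k := by
  simp [X, Finset.sum_range_succ', add_comm]

lemma E_shift (hw1 : ∑ i, w i = 1) (m j : ℕ) (F : (ℕ → V) → ℝ) :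
    E v w (m + j) (fun ω => F (fun n => ω (n + j))) = E v w m F := by
  induction j with
  | zero => rfl
  | succ j ih =>
    rw [← add_assoc, E_succ]
    have : ∀ i, (fun ω : ℕ → V => F (fun n => cns (v i) ω (n + (j + 1)))) =
        fun ω => F (fun n => ω (n + j)) := by
      intro i; funext ω; rfl
    simp only [this, ih, ← Finset.sum_mul, hw1, one_mul]

lemma X_shift (ω : ℕ → V) (j k : ℕ) : X (fun n => ω (n + j)) k = X ω (j + k) - X ω j := by
  simp only [X]
  rw [Finset.sum_range_add, add_sub_cancel_left]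
  exact Finset.sum_congr rfl fun i _ => by rw [add_comm]

lemma E_pos (hw1 : ∑ i, w i = 1) (f : V → ℝ) (n k : ℕ) (hk : k ≤ n) (x : V) :
    E v w n (fun ω => f (x + X ω k)) = ((P v w) ^ k) f x := by
  induction n generalizing k x with
  | zero =>
    obtain rfl : k = 0 := by omega
    simp [E_zero]
  | succ n ih =>
    cases k with
    | zero => simp [E_const v w hw1]
    | succ k =>
      rw [E_succ, Pn_succ, P_apply]
      refine Finset.sum_congr rfl fun i _ => ?_
      rw [← ih k (by omega)]
      simp only [X_cns, add_assoc]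

/-- append a step at time `n` -/
lemma E_snoc (n : ℕ) (F : (ℕ → V) → ℝ) :
    E v w (n + 1) F = E v w n (fun ω => ∑ i, w i * F (Function.update ω n (v i))) := by
  induction n generalizing F with
  | zero =>
    simp only [zero_add, E_succ, E_zero]
    refine Finset.sum_congr rfl fun i _ => ?_
    congr 2
    funext n
    cases n with
    | zero => simp
    | succ n => simp
  | succ n ih =>
    have h0 : E v w (n + 1 + 1) F = ∑ i, w i * E v w n (fun ω =>
        ∑ j, w j * F (cns (v i) (Function.update ω n (v j)))) := by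
      rw [E_succ]
      exact Finset.sum_congr rfl fun i _ => by rw [ih]
    rw [h0, E_succ]
    refine Finset.sum_congr rfl fun i _ => ?_
    congr 1
    congr 1
    funext ω
    refine Finset.sum_congr rfl fun j _ => ?_
    congr 2
    funext m
    cases m with
    | zero => simp
    | succ m =>
      by_cases h : m = n
      · subst h; simp
      · simp [Function.update_apply, h]

/-- `F` depends only on the first `n` increments. -/
def Dep (n : ℕ) (F : (ℕ → V) → ℝ) : Prop :=
  ∀ ω ω' : ℕ → V, (∀ i < n, ω i = ω' i) → F ω = F ω'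

lemma E_dep (hw1 : ∑ i, w i = 1) {j : ℕ} {F : (ℕ → V) → ℝ} (hF : Dep j F) (m : ℕ) :
    E v w (j + m) F = E v w j F := by
  induction m with
  | zero => rfl
  | succ m ih =>
    rw [← add_assoc, E_snoc, ← ih]
    congr 1
    funext ω
    have : ∀ i, F (Function.update ω (j + m) (v i)) = F ω := by
      intro i
      refine hF _ _ fun k hk => ?_
      rw [Function.update_of_ne (by omega)]
    simp only [this, ← Finset.sum_mul, hw1, one_mul]

lemma E_dep' (hw1 : ∑ i, w i = 1) {j n : ℕ} (hj : j ≤ n) {F : (ℕ → V) → ℝ} (hF : Dep j F) :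
    E v w n F = E v w j F := by
  obtain ⟨m, rfl⟩ := Nat.exists_eq_add_of_le hj
  exact E_dep v w hw1 hF m

lemma E_congr_dep {n : ℕ} {F G : (ℕ → V) → ℝ} (h : ∀ ω, F ω = G ω) :
    E v w n F = E v w n G := by
  congr 1; funext ω; exact h ω

variable (f : V → ℝ)

/-- additive functional of the walk started at `x`, time horizon `N`. -/
def Wf (N : ℕ) (x : V) (ω : ℕ → V) : ℝ := ∑ k ∈ Finset.range (N + 1), f (x + X ω k)

/-- backward additive functional. -/
def Qf (j : ℕ) (x : V) (ω : ℕ → V) : ℝ := ∑ i ∈ Finset.range (j + 1), f (x + (X ω j - X ω i))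

/-- expected value of the additive functional -/
noncomputable def Uf (N : ℕ) (x : V) : ℝ := ∑ k ∈ Finset.range (N + 1), ((P v w) ^ k) f x

lemma Wf_cns (N : ℕ) (x s : V) (ω : ℕ → V) :
    Wf f (N + 1) x (cns s ω) = f x + Wf f N (x + s) ω := by
  simp only [Wf]
  rw [Finset.sum_range_succ', add_comm]
  simp [X_cns, add_assoc]

lemma Uf_succ (N : ℕ) (x : V) : Uf v w f (N + 1) x = f x + P v w (Uf v w f N) x := by
  unfold Uf
  rw [Finset.sum_range_succ', add_comm]
  simp only [pow_zero, Module.End.one_apply, Pn_succ]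
  congr 1
  simp only [P_apply, Finset.mul_sum]
  rw [Finset.sum_comm]

lemma E_Wf (hw1 : ∑ i, w i = 1) (N : ℕ) (x : V) :
    E v w N (Wf f N x) = Uf v w f N x := by
  unfold Wf Uf
  rw [E_sum]
  refine Finset.sum_congr rfl fun k hk => ?_
  exact E_pos v w hw1 f N k (by simpa [Nat.lt_succ_iff] using hk) x

/-- second moment bound (Khas'minskii) -/
lemma E_Wf_sq (hw : ∀ i, 0 ≤ w i) (hw1 : ∑ i, w i = 1) (hf : ∀ x, 0 ≤ f x) {B : ℝ}
    (hB : ∀ N x, Uf v w f N x ≤ B) (N : ℕ) (x : V) :
    E v w N (fun ω => (Wf f N x ω) ^ 2) ≤ 2 * B * Uf v w f N x := by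
  induction N generalizing x with
  | zero =>
    have h0 : Uf v w f 0 x = f x := by simp [Uf]
    have h1 : E v w 0 (fun ω => (Wf f 0 x ω) ^ 2) = f x ^ 2 := by simp [E_zero, Wf]
    rw [h0, h1]
    have := hB 0 x
    rw [h0] at this
    nlinarith [hf x]
  | succ N ih =>
    have hWn : ∀ ω, 0 ≤ Wf f N x ω := fun ω => Finset.sum_nonneg fun k _ => hf _
    have key : ∀ ω : ℕ → V, ∀ s, (Wf f (N + 1) x (cns s ω)) ^ 2 ≤
        (Wf f N (x + s) ω) ^ 2 + 2 * f x * Wf f (N + 1) x (cns s ω) := by
      intro ω s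
      rw [Wf_cns]
      nlinarith [hf x]
    calc E v w (N + 1) (fun ω => (Wf f (N + 1) x ω) ^ 2)
        = ∑ i, w i * E v w N (fun ω => (Wf f (N + 1) x (cns (v i) ω)) ^ 2) := rfl
      _ ≤ ∑ i, w i * E v w N (fun ω => (Wf f N (x + v i) ω) ^ 2 +
            2 * f x * Wf f (N + 1) x (cns (v i) ω)) :=
          Finset.sum_le_sum fun i _ => mul_le_mul_of_nonneg_left
            (E_mono v w hw N fun ω => key ω _) (hw i)
      _ = (∑ i, w i * E v w N (fun ω => (Wf f N (x + v i) ω) ^ 2)) +
            2 * f x * E v w (N + 1) (Wf f (N + 1) x) := by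
          rw [E_succ, Finset.mul_sum, ← Finset.sum_add_distrib]
          refine Finset.sum_congr rfl fun i _ => ?_
          rw [E_add, E_mul_left]; ring
      _ ≤ (∑ i, w i * (2 * B * Uf v w f N (x + v i))) + 2 * f x * B := by
          refine add_le_add (Finset.sum_le_sum fun i _ =>
            mul_le_mul_of_nonneg_left (ih _) (hw i)) ?_
          rw [E_Wf v w f hw1]
          exact mul_le_mul_of_nonneg_left (hB _ _) (by linarith [hf x])
      _ = 2 * B * Uf v w f (N + 1) x := by
          rw [Uf_succ, P_apply, mul_add, Finset.mul_sum, add_comm]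
          congr 1
          · ring
          · exact Finset.sum_congr rfl fun i _ => by ring

lemma Qf_succ_update (j : ℕ) (x s : V) (ω : ℕ → V) :
    Qf f (j + 1) x (Function.update ω j s) = f x + Qf f j (x + s) ω := by
  have hX : ∀ k, k ≤ j → X (Function.update ω j s) k = X ω k := by
    intro k hk
    unfold X
    refine Finset.sum_congr rfl fun i hi => ?_
    rw [Function.update_of_ne]
    have := Finset.mem_range.1 hi
    omega
  unfold Qf
  rw [Finset.sum_range_succ, add_comm]
  congr 1
  · rw [sub_self, add_zero]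
  · refine Finset.sum_congr rfl fun i hi => ?_
    have hi' := Finset.mem_range.1 hi
    rw [X_succ, hX i (by omega), hX j le_rfl, Function.update_self]
    congr 1
    abel

lemma E_Qf (Φ : ℝ → ℝ) (j : ℕ) (x : V) :
    E v w j (fun ω => Φ (Qf f j x ω)) = E v w j (fun ω => Φ (Wf f j x ω)) := by
  induction j generalizing x Φ with
  | zero => simp [E_zero, Qf, Wf]
  | succ j ih =>
    rw [E_snoc, E_succ, E_sum]
    refine Finset.sum_congr rfl fun i _ => ?_
    rw [E_mul_left]
    simp only [Qf_succ_update, Wf_cns]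
    rw [ih (fun y => Φ (f x + y)) (x + v i)]

lemma Qf_dep (j : ℕ) (x : V) : Dep j (Qf f j x) := by
  intro ω ω' h
  have hX : ∀ k, k ≤ j → X ω k = X ω' k := by
    intro k hk
    unfold X
    refine Finset.sum_congr rfl fun i hi => h i ?_
    have := Finset.mem_range.1 hi
    omega
  unfold Qf
  refine Finset.sum_congr rfl fun i hi => ?_
  have hi' := Finset.mem_range.1 hi
  rw [hX i (by omega), hX j le_rfl]

end AsympCap
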