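import Mathlib
import Pool.Agent.W_MP_b733c5_pr.Defs
import Pool.Agent.W_MP_b733c5_pr.Expect

/-!
# The link between the product measure and finite sums
-/

open Filter Topology MeasureTheory

namespace AsympCap

variable {d : ℕ} {S : Finset (Fin d → ℤ)}

lemma measurable_cns {V : Type*} [MeasurableSpace V] :
    Measurable (fun p : V × (ℕ → V) => cns p.1 p.2) := by
  rw [measurable_pi_iff]
  intro n
  cases n with
  | zero => exact measurable_fst
  | succ n => exact (measurable_pi_apply n).comp measurable_snd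

lemma infinitePi_eq_map {V : Type*} [MeasurableSpace V] (ν : Measure V) [IsProbabilityMeasure ν] :
    Measure.infinitePi (fun _ : ℕ => ν) =
      (ν.prod (Measure.infinitePi (fun _ : ℕ => ν))).map
        (fun p : V × (ℕ → V) => cns p.1 p.2) := by
  symm
  apply Measure.eq_infinitePi
  intro s t ht
  classical
  obtain ⟨N, hN⟩ : ∃ N, s ⊆ Finset.range (N + 1) := by
    refine ⟨s.sup id, fun i hi => ?_⟩
    rw [Finset.mem_range, Nat.lt_succ_iff]
    exact Finset.le_sup (f := id) hi
  set t' : ℕ → Set V := fun i => if i ∈ s then t i else Set.univ with ht'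
  have hmt' : ∀ i, MeasurableSet (t' i) := fun i => by
    simp only [ht']; split_ifs
    · exact ht i
    · exact MeasurableSet.univ
  rw [Measure.map_apply measurable_cns (MeasurableSet.pi s.countable_toSet (fun i _ => ht i))]
  have hpre : (fun p : V × (ℕ → V) => cns p.1 p.2) ⁻¹' (Set.pi (s : Set ℕ) t) =
      (t' 0) ×ˢ (Set.pi (Finset.range N : Set ℕ) (fun i => t' (i + 1))) := by
    ext ⟨a, ω⟩
    simp only [Set.mem_preimage, Set.mem_pi, Set.mem_prod, Finset.coe_range, Set.mem_Iio,
      Finset.mem_coe]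
    constructor
    · intro h
      constructor
      · simp only [ht']; split_ifs with h0
        · exact h 0 h0
        · trivial
      · intro i _
        simp only [ht']; split_ifs with h0
        · exact h (i + 1) h0
        · trivial
    · rintro ⟨h0, h1⟩ i hi
      cases i with
      | zero => simpa [ht', hi] using h0
      | succ i =>
        have : i < N := by
          have := Finset.mem_range.1 (hN hi)
          omega
        simpa [ht', hi] using h1 i this
  rw [hpre, Measure.prod_prod, Measure.infinitePi_pi _ (fun i _ => hmt' (i + 1))]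
  have h1 : ∏ i ∈ s, ν (t i) = ∏ i ∈ Finset.range (N + 1), ν (t' i) := by
    rw [← Finset.prod_subset hN]
    · exact Finset.prod_congr rfl fun i hi => by simp [ht', hi]
    · intro i _ hi
      simp [ht', hi]
  rw [h1, Finset.prod_range_succ', mul_comm]

lemma stepLaw_univ {μ : S → ℝ} (hμ : μ ∈ Delta S) : stepLaw μ Set.univ = 1 := by
  unfold stepLaw
  rw [Measure.finsetSum_apply]
  simp only [Measure.smul_apply, Measure.dirac_apply', MeasurableSet.univ, Set.indicator_univ,
    Pi.one_apply, smul_eq_mul, mul_one]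
  rw [← ENNReal.ofReal_sum_of_nonneg fun s _ => (hμ.1 s).le, hμ.2, ENNReal.ofReal_one]

lemma isProb_stepLaw {μ : S → ℝ} (hμ : μ ∈ Delta S) : IsProbabilityMeasure (stepLaw μ) :=
  ⟨stepLaw_univ hμ⟩

lemma isProb_incLaw {μ : S → ℝ} (hμ : μ ∈ Delta S) : IsProbabilityMeasure (incLaw μ) := by
  have := isProb_stepLaw hμ
  unfold incLaw
  infer_instance

lemma integral_stepLaw {μ : S → ℝ} (hμ : μ ∈ Delta S) (f : (Fin d → ℤ) → ℝ) :
    ∫ a, f a ∂(stepLaw μ) = ∑ s : S, μ s * f s := by
  unfold stepLaw
  rw [integral_finsetSum_measure]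
  · refine Finset.sum_congr rfl fun s _ => ?_
    rw [integral_smul_measure, integral_dirac, ENNReal.toReal_ofReal (hμ.1 s).le, smul_eq_mul]
  · intro s _
    refine Integrable.smul_measure ?_ ENNReal.ofReal_ne_top
    exact integrable_dirac (by simp)

lemma Dep.measurable {n : ℕ} {F : (ℕ → Fin d → ℤ) → ℝ} (h : Dep n F) : Measurable F := by
  have : F = (fun p : Fin n → (Fin d → ℤ) => F (fun i => if h : i < n then p ⟨i, h⟩ else 0)) ∘
      (fun ω : ℕ → Fin d → ℤ => fun i : Fin n => ω i) := by
    funext ω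
    refine h _ _ fun i hi => ?_
    simp [hi]
  rw [this]
  refine Measurable.comp (measurable_of_countable _) ?_
  fun_prop

/-- expectation under the product measure of a bounded function of the first `n` increments. -/
lemma integral_incLaw {μ : S → ℝ} (hμ : μ ∈ Delta S) {C : ℝ} (n : ℕ) {F : (ℕ → Fin d → ℤ) → ℝ}
    (hF : Dep n F) (hC : ∀ ω, |F ω| ≤ C) :
    ∫ ω, F ω ∂(incLaw μ) = E (fun s : S => (s : Fin d → ℤ)) μ n F := by
  have := isProb_stepLaw hμ
  have := isProb_incLaw hμ
  induction n generalizing F with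
  | zero =>
    have : F = fun _ => F 0 := by
      funext ω
      exact hF _ _ (by simp)
    rw [this]
    simp [E_zero]
  | succ n ih =>
    have hm : Measurable F := hF.measurable
    have h1 : ∫ ω, F ω ∂(incLaw μ) =
        ∫ p, F (cns p.1 p.2) ∂((stepLaw μ).prod (incLaw μ)) := by
      unfold incLaw
      conv_lhs => rw [infinitePi_eq_map]
      rw [integral_map measurable_cns.aemeasurable hm.aestronglyMeasurable]
    have hint : Integrable (fun p : (Fin d → ℤ) × (ℕ → Fin d → ℤ) => F (cns p.1 p.2))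
        ((stepLaw μ).prod (incLaw μ)) := by
      refine Integrable.of_bound (hm.comp measurable_cns).aestronglyMeasurable C ?_
      exact Eventually.of_forall fun p => hC _
    rw [h1, integral_prod _ hint, integral_stepLaw hμ, E_succ]
    refine Finset.sum_congr rfl fun s _ => ?_
    congr 1
    refine ih ?_ (fun ω => hC _)
    intro ω ω' h
    refine hF _ _ fun i hi => ?_
    cases i with
    | zero => rfl
    | succ i => exact h i (by omega)

lemma walk_eq (x : Fin d → ℤ) (ω : ℕ → Fin d → ℤ) (n : ℕ) : walk x ω n = x + X ω n := rfl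

lemma X_congr {ω ω' : ℕ → Fin d → ℤ} {n : ℕ} (h : ∀ i < n, ω i = ω' i) {k : ℕ} (hk : k ≤ n) :
    X ω k = X ω' k := by
  unfold X
  exact Finset.sum_congr rfl fun i hi => h i (by have := Finset.mem_range.1 hi; omega)

/-- indicator of not hitting `A` in `[1, n]` -/
noncomputable def av (A : Finset (Fin d → ℤ)) (n : ℕ) (x : Fin d → ℤ) (ω : ℕ → Fin d → ℤ) : ℝ :=
  open scoped Classical in if ∀ m, 1 ≤ m → m ≤ n → x + X ω m ∉ A then 1 else 0

lemma av_dep (A : Finset (Fin d → ℤ)) (n : ℕ) (x : Fin d → ℤ) : Dep n (av A n x) := by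
  intro ω ω' h
  unfold av
  have : (∀ m, 1 ≤ m → m ≤ n → x + X ω m ∉ A) ↔ (∀ m, 1 ≤ m → m ≤ n → x + X ω' m ∉ A) := by
    refine forall_congr' fun m => forall_congr' fun _ => forall_congr' fun hm => ?_
    rw [X_congr h hm]
  simp only [this]

lemma E_av {μ : S → ℝ} (hμ : μ ∈ Delta S) (A : Finset (Fin d → ℤ)) (n : ℕ) (x : Fin d → ℤ) :
    E (fun s : S => (s : Fin d → ℤ)) μ n (av A n x) =
      u (fun s : S => (s : Fin d → ℤ)) μ A n x := by
  induction n generalizing x with
  | zero =>
    rw [E_zero, u_zero]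
    unfold av
    rw [if_pos]
    intro m h1 h2
    omega
  | succ n ih =>
    rw [E_succ, u_succ, P_apply]
    refine Finset.sum_congr rfl fun s _ => ?_
    congr 1
    have h1 : ∀ ω, av A (n + 1) x (cns (s : Fin d → ℤ) ω) =
        if (x + s) ∈ A then 0 else av A n (x + s) ω := by
      intro ω
      unfold av
      by_cases hA : (x + s) ∈ A
      · rw [if_pos hA, if_neg]
        intro h
        have := h 1 le_rfl (by omega)
        rw [show (1 : ℕ) = 0 + 1 from rfl, X_cns] at this
        simp at this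
        exact this hA
      · rw [if_neg hA]
        congr 1
        apply propext
        constructor
        · intro h m h1 h2
          have := h (m + 1) (by omega) (by omega)
          rwa [X_cns, ← add_assoc] at this
        · intro h m h1 h2
          obtain ⟨m, rfl⟩ : ∃ k, m = k + 1 := ⟨m - 1, by omega⟩
          rw [X_cns, ← add_assoc]
          rcases Nat.eq_zero_or_pos m with rfl | hm
          · simpa using hA
          · exact h m hm (by omega)
    simp only [h1]
    split_ifs with hA
    · exact E_const _ _ hμ.2 n 0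
    · exact ih _

lemma esc_eq {μ : S → ℝ} (hμ : μ ∈ Delta S) (A : Finset (Fin d → ℤ)) (x : Fin d → ℤ) :
    (incLaw μ).real {ω | ∀ m, 1 ≤ m → walk x ω m ∉ A} =
      esc (fun s : S => (s : Fin d → ℤ)) μ A x := by
  have := isProb_incLaw hμ
  set B : ℕ → Set (ℕ → Fin d → ℤ) := fun n => {ω | ∀ m, 1 ≤ m → m ≤ n → x + X ω m ∉ A} with hB
  have hBm : ∀ n, MeasurableSet (B n) := by
    intro n
    have h1 : B n = (av A n x) ⁻¹' {1} := by
      ext ω
      simp only [hB, Set.mem_ofPred_eq, Set.mem_preimage, Set.mem_singleton_iff, av]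
      split_ifs with h
      · exact ⟨fun _ => rfl, fun _ => h⟩
      · exact ⟨fun h' => absurd h' h, fun h' => absurd h' (by norm_num)⟩
    rw [h1]
    exact (av_dep A n x).measurable (measurableSet_singleton 1)
  have hBr : ∀ n, (incLaw μ).real (B n) = u (fun s : S => (s : Fin d → ℤ)) μ A n x := by
    intro n
    rw [← E_av hμ A n x, ← integral_incLaw hμ (C := 1) n (av_dep A n x)
      (fun ω => by unfold av; split_ifs <;> simp)]
    rw [← integral_indicator_one (hBm n)]
    congr 1
    funext ω
    simp only [Set.indicator, av, hB, Set.mem_ofPred_eq, Pi.one_apply]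
  have hI : {ω | ∀ m, 1 ≤ m → walk x ω m ∉ A} = ⋂ n, B n := by
    ext ω
    simp only [Set.mem_ofPred_eq, Set.mem_iInter, hB, walk_eq]
    exact ⟨fun h n m h1 _ => h m h1, fun h m h1 => h m m h1 le_rfl⟩
  have hanti : Antitone B := by
    intro n n' hnn' ω hω m h1 h2
    exact hω m h1 (h2.trans hnn')
  have ht : Tendsto (fun n => (incLaw μ) (B n)) atTop (𝓝 ((incLaw μ) (⋂ n, B n))) :=
    tendsto_measure_iInter_atTop (fun n => (hBm n).nullMeasurableSet) hanti
      ⟨0, measure_ne_top _ _⟩
  have ht' : Tendsto (fun n => (incLaw μ).real (B n)) atTop (𝓝 ((incLaw μ).real (⋂ n, B n))) :=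
    (ENNReal.tendsto_toReal (measure_ne_top _ _)).comp ht
  rw [hI]
  refine tendsto_nhds_unique ht' ?_
  simp_rw [hBr]
  exact esc_tendsto _ _ A (fun s => (hμ.1 s).le) hμ.2 x

lemma capacity_eq {μ : S → ℝ} (hμ : μ ∈ Delta S) (A : Finset (Fin d → ℤ)) :
    capacity μ A = ∑ x ∈ A, esc (fun s : S => (s : Fin d → ℤ)) μ A x :=
  Finset.sum_congr rfl fun x _ => esc_eq hμ A x

lemma capacity_nonneg (μ : S → ℝ) (A : Finset (Fin d → ℤ)) : 0 ≤ capacity μ A :=
  Finset.sum_nonneg fun _ _ => measureReal_nonneg

lemma card_walkRange_le (ω : ℕ → Fin d → ℤ) (n : ℕ) : (walkRange ω n).card ≤ n + 1 := by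
  unfold walkRange
  exact Finset.card_image_le.trans (by simp)

lemma capacity_le {μ : S → ℝ} (hμ : μ ∈ Delta S) (ω : ℕ → Fin d → ℤ) (n : ℕ) :
    capacity μ (walkRange ω n) ≤ n + 1 := by
  have := isProb_incLaw hμ
  unfold capacity
  calc _ ≤ ∑ x ∈ walkRange ω n, (1 : ℝ) := Finset.sum_le_sum fun x _ => measureReal_le_one
    _ = (walkRange ω n).card := by simp
    _ ≤ ((n + 1 : ℕ) : ℝ) := by exact_mod_cast card_walkRange_le ω n
    _ = n + 1 := by push_cast; ring

lemma walkRange_congr {ω ω' : ℕ → Fin d → ℤ} {n : ℕ} (h : ∀ i < n, ω i = ω' i) :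
    walkRange ω n = walkRange ω' n := by
  unfold walkRange
  refine Finset.image_congr fun k hk => ?_
  rw [walk_eq, walk_eq, X_congr h]
  have := Finset.mem_range.1 hk
  omega

lemma capacity_dep (μ : S → ℝ) (n : ℕ) : Dep n (fun ω => capacity μ (walkRange ω n)) := by
  intro ω ω' h
  simp only [walkRange_congr h]

/-- expected capacity of the range -/
noncomputable def ECap (μ : S → ℝ) (n : ℕ) : ℝ :=
  E (fun s : S => (s : Fin d → ℤ)) μ n (fun ω => capacity μ (walkRange ω n))

lemma integral_capacity {μ : S → ℝ} (hμ : μ ∈ Delta S) (n : ℕ) :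
    ∫ ω, capacity μ (walkRange ω n) ∂(incLaw μ) = ECap μ n :=
  integral_incLaw hμ (C := n + 1) n (capacity_dep μ n)
    (fun ω => by rw [abs_of_nonneg (capacity_nonneg _ _)]; exact capacity_le hμ ω n)

lemma ECap_tendsto {μ : S → ℝ} (hμ : μ ∈ Delta S) {L : ℝ}
    (h : ∀ᵐ ω ∂(incLaw μ), Tendsto (fun n : ℕ => capacity μ (walkRange ω n) / n) atTop (𝓝 L)) :
    Tendsto (fun n : ℕ => ECap μ n / n) atTop (𝓝 L) := by
  have := isProb_incLaw hμ
  have h1 : Tendsto (fun n : ℕ => ∫ ω, capacity μ (walkRange ω n) / n ∂(incLaw μ)) atTop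
      (𝓝 (∫ _, L ∂(incLaw μ))) := by
    refine tendsto_integral_of_dominated_convergence (fun _ => 2) ?_ ?_ ?_ h
    · intro n
      exact ((capacity_dep μ n).measurable.div_const _).aestronglyMeasurable
    · exact integrable_const _
    · intro n
      refine Eventually.of_forall fun ω => ?_
      rw [Real.norm_eq_abs, abs_of_nonneg (div_nonneg (capacity_nonneg _ _) (Nat.cast_nonneg _))]
      rcases Nat.eq_zero_or_pos n with rfl | hn
      · simp
      · have hn' : (1 : ℝ) ≤ n := by exact_mod_cast hn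
        rw [div_le_iff₀ (by linarith)]
        have := capacity_le hμ ω n
        linarith
  simp only [integral_const, probReal_univ, one_smul] at h1
  refine h1.congr fun n => ?_
  rw [integral_div, integral_capacity hμ]

end AsympCap
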