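import Mathlib
import Pool.Agent.W_MP_b733c5_pr.Meas

/-!
# Existence of the asymptotic mean capacity
-/

open Filter Topology MeasureTheory

namespace AsympCap

variable {d : ℕ} {S : Finset (Fin d → ℤ)}

lemma capacity_union_le {μ : S → ℝ} (hμ : μ ∈ Delta S) (A B : Finset (Fin d → ℤ)) :
    capacity μ (A ∪ B) ≤ capacity μ A + capacity μ B := by
  have := isProb_incLaw hμ
  unfold capacity
  have h1 : ∀ (C : Finset (Fin d → ℤ)), C ⊆ A ∪ B →
      ∑ x ∈ C, (incLaw μ).real {ω | ∀ m, 1 ≤ m → walk x ω m ∉ A ∪ B} ≤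
      ∑ x ∈ C, (incLaw μ).real {ω | ∀ m, 1 ≤ m → walk x ω m ∉ C} := by
    intro C hC
    refine Finset.sum_le_sum fun x _ => measureReal_mono ?_
    intro ω hω m hm hmem
    exact hω m hm (hC hmem)
  have h2 : ∑ x ∈ A ∪ B, (incLaw μ).real {ω | ∀ m, 1 ≤ m → walk x ω m ∉ A ∪ B} ≤
      ∑ x ∈ A, (incLaw μ).real {ω | ∀ m, 1 ≤ m → walk x ω m ∉ A ∪ B} +
      ∑ x ∈ B, (incLaw μ).real {ω | ∀ m, 1 ≤ m → walk x ω m ∉ A ∪ B} := by
    rw [← Finset.sum_union_inter]
    have : 0 ≤ ∑ x ∈ A ∩ B, (incLaw μ).real {ω | ∀ m, 1 ≤ m → walk x ω m ∉ A ∪ B} :=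
      Finset.sum_nonneg fun _ _ => measureReal_nonneg
    linarith
  exact h2.trans (add_le_add (h1 A Finset.subset_union_left) (h1 B Finset.subset_union_right))

lemma capacity_translate (μ : S → ℝ) (z : Fin d → ℤ) (A : Finset (Fin d → ℤ)) :
    capacity μ (A.image (fun x => z + x)) = capacity μ A := by
  unfold capacity
  rw [Finset.sum_image (fun x _ y _ h => add_left_cancel h)]
  refine Finset.sum_congr rfl fun x _ => ?_
  congr 1
  ext ω
  refine forall_congr' fun m => forall_congr' fun _ => not_congr ?_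
  have : walk (z + x) ω m = z + walk x ω m := by
    unfold walk; rw [add_assoc]
  rw [this, Finset.mem_image]
  constructor
  · rintro ⟨y, hy, h⟩
    rwa [← add_left_cancel h]
  · intro h
    exact ⟨_, h, rfl⟩

lemma walkRange_add (ω : ℕ → Fin d → ℤ) (m n : ℕ) :
    walkRange ω (m + n) = walkRange ω m ∪
      (walkRange (fun i => ω (i + m)) n).image (fun x => X ω m + x) := by
  ext x
  simp only [walkRange, Finset.mem_union, Finset.mem_image, Finset.mem_range, exists_exists_and_eq_and,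
    walk_eq, zero_add, X_shift]
  constructor
  · rintro ⟨k, hk, rfl⟩
    by_cases h : k < m + 1
    · exact Or.inl ⟨k, h, rfl⟩
    · refine Or.inr ⟨k - m, by omega, ?_⟩
      rw [show m + (k - m) = k by omega]
      abel
  · rintro (⟨k, hk, rfl⟩ | ⟨k, hk, rfl⟩)
    · exact ⟨k, by omega, rfl⟩
    · exact ⟨m + k, by omega, by abel⟩

lemma ECap_subadditive {μ : S → ℝ} (hμ : μ ∈ Delta S) : Subadditive (ECap μ) := by
  intro m n
  unfold ECap
  have hw : ∀ s, 0 ≤ μ s := fun s => (hμ.1 s).le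
  have h1 := E_mono (fun s : S => (s : Fin d → ℤ)) μ hw (m + n)
    (F := fun ω => capacity μ (walkRange ω (m + n)))
    (G := fun ω => capacity μ (walkRange ω m) + capacity μ (walkRange (fun i => ω (i + m)) n))
    (fun ω => by
      rw [walkRange_add]
      refine (capacity_union_le hμ _ _).trans ?_
      rw [capacity_translate])
  refine h1.trans ?_
  rw [E_add]
  refine add_le_add (le_of_eq ?_) (le_of_eq ?_)
  · exact E_dep _ _ hμ.2 (capacity_dep μ m) n
  · rw [add_comm m n]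
    exact E_shift _ _ hμ.2 n m (fun ω => capacity μ (walkRange ω n))

lemma ECap_nonneg {μ : S → ℝ} (hμ : μ ∈ Delta S) (n : ℕ) : 0 ≤ ECap μ n := by
  rw [← integral_capacity hμ]
  exact integral_nonneg fun ω => capacity_nonneg _ _

lemma exists_mean_limit {μ : S → ℝ} (hμ : μ ∈ Delta S) :
    ∃ L : ℝ, Tendsto (fun n : ℕ => ECap μ n / n) atTop (𝓝 L) := by
  refine ⟨_, (ECap_subadditive hμ).tendsto_lim ⟨0, ?_⟩⟩
  rintro _ ⟨n, rfl⟩
  exact div_nonneg (ECap_nonneg hμ n) (Nat.cast_nonneg _)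

lemma exists_isMean (S : Finset (Fin d → ℤ)) : ∃ c, IsMeanAsymptoticCapacity S c := by
  classical
  refine ⟨fun μ => if h : μ ∈ Delta S then (exists_mean_limit h).choose else 0, ?_⟩
  intro μ hμ
  simp_rw [integral_capacity hμ]
  rw [dif_pos hμ]
  exact (exists_mean_limit hμ).choose_spec

end AsympCap
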