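import Mathlib
import Pool.Agent.W_MP_b733c5_pr.Walk

/-!
# Fourier representation on `ℤ^4`
-/

open Filter Topology MeasureTheory

namespace AsympCap

/-- Lebesgue measure on `(-π, π]`. -/
noncomputable def mu1 : Measure ℝ := volume.restrict (Set.Ioc (-Real.pi) Real.pi)

instance : IsFiniteMeasure mu1 := by
  unfold mu1; exact ⟨by simp [Real.volume_Ioc]⟩

/-- Lebesgue measure on `(-π, π]^4`. -/
noncomputable def nu : Measure (Fin 4 → ℝ) := Measure.pi (fun _ => mu1)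

instance : IsFiniteMeasure nu := by unfold nu; infer_instance

/-- characters -/
noncomputable def ch (x : Fin 4 → ℤ) (θ : Fin 4 → ℝ) : ℂ :=
  ∏ k, Complex.exp ((x k : ℂ) * (θ k : ℂ) * Complex.I)

lemma ch_add (x y : Fin 4 → ℤ) (θ : Fin 4 → ℝ) : ch (x + y) θ = ch x θ * ch y θ := by
  unfold ch
  rw [← Finset.prod_mul_distrib]
  refine Finset.prod_congr rfl fun k _ => ?_
  rw [← Complex.exp_add]
  congr 1
  simp only [Pi.add_apply, Int.cast_add]
  ring

lemma norm_ch (x : Fin 4 → ℤ) (θ : Fin 4 → ℝ) : ‖ch x θ‖ = 1 := by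
  unfold ch
  rw [norm_prod]
  refine Finset.prod_eq_one fun k _ => ?_
  have : ((x k : ℂ) * (θ k : ℂ) * Complex.I) = (((x k : ℝ) * θ k : ℝ) : ℂ) * Complex.I := by
    push_cast; ring
  rw [this, Complex.norm_exp_ofReal_mul_I]

lemma continuous_ch (x : Fin 4 → ℤ) : Continuous (ch x) := by
  unfold ch
  fun_prop

lemma integral_exp_mu1 (n : ℤ) :
    ∫ θ, Complex.exp ((n : ℂ) * (θ : ℂ) * Complex.I) ∂mu1 = if n = 0 then (2 * Real.pi : ℂ) else 0 := by
  unfold mu1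
  rw [← intervalIntegral.integral_of_le (by linarith [Real.pi_pos])]
  split_ifs with h
  · subst h
    simp
    ring
  · have hn : ((n : ℂ) * Complex.I) ≠ 0 := by
      refine mul_ne_zero (by exact_mod_cast h) Complex.I_ne_zero
    have h1 : ∀ θ : ℝ, Complex.exp ((n : ℂ) * (θ : ℂ) * Complex.I) =
        Complex.exp (((n : ℂ) * Complex.I) * θ) := by
      intro θ; congr 1; ring
    simp_rw [h1]
    rw [integral_exp_mul_complex hn]
    rw [div_eq_zero_iff]; left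
    have : Complex.exp (((n : ℂ) * Complex.I) * (Real.pi : ℝ)) =
        Complex.exp (((n : ℂ) * Complex.I) * ((-Real.pi : ℝ) : ℂ)) := by
      rw [Complex.exp_eq_exp_iff_exists_int]
      exact ⟨n, by push_cast; ring⟩
    rw [this, sub_self]

lemma integral_ch (x : Fin 4 → ℤ) :
    ∫ θ, ch x θ ∂nu = ((2 * Real.pi : ℂ) ^ 4) * ((delta0 x : ℝ) : ℂ) := by
  unfold ch nu
  rw [integral_fintype_prod_eq_prod (𝕜 := ℂ)
    (fun (k : Fin 4) (θ : ℝ) => Complex.exp ((x k : ℂ) * (θ : ℂ) * Complex.I))]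
  simp_rw [integral_exp_mu1]
  unfold delta0
  split_ifs with h
  · subst h
    simp
  · have : ∃ k, x k ≠ 0 := by
      by_contra hc
      push Not at hc
      exact h (funext hc)
    obtain ⟨k, hk⟩ := this
    rw [Finset.prod_eq_zero (Finset.mem_univ k) (by rw [if_neg hk])]
    simp

variable {ι : Type*} [Fintype ι] (v : ι → (Fin 4 → ℤ)) (w : ι → ℝ)

/-- symbol of the walk -/
noncomputable def phi (θ : Fin 4 → ℝ) : ℂ := ∑ i, (w i : ℂ) * ch (v i) θ

lemma continuous_phi : Continuous (phi v w) := by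
  unfold phi
  exact continuous_finsetSum _ fun i _ => continuous_const.mul (continuous_ch _)

lemma integrable_nu {ψ : (Fin 4 → ℝ) → ℂ} (hψ : Continuous ψ) : Integrable ψ nu := by
  have hK : IsCompact (Set.pi Set.univ (fun _ : Fin 4 => Set.Icc (-Real.pi) Real.pi)) :=
    isCompact_univ_pi fun _ => isCompact_Icc
  have h1 : IntegrableOn ψ (Set.pi Set.univ (fun _ : Fin 4 => Set.Icc (-Real.pi) Real.pi))
      (volume : Measure (Fin 4 → ℝ)) := hψ.continuousOn.integrableOn_compact hK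
  have h2 : nu = (volume : Measure (Fin 4 → ℝ)).restrict
      (Set.pi Set.univ (fun _ : Fin 4 => Set.Ioc (-Real.pi) Real.pi)) := by
    unfold nu mu1
    rw [volume_pi, Measure.restrict_pi_pi]
  rw [h2]
  exact h1.mono_set (Set.pi_mono fun _ _ => Set.Ioc_subset_Icc_self)

/-- `f` is represented by the continuous function `ψ`. -/
def Rep (f : (Fin 4 → ℤ) → ℝ) (ψ : (Fin 4 → ℝ) → ℂ) : Prop :=
  Continuous ψ ∧ ∀ x, (f x : ℂ) = ∫ θ, ψ θ * ch x θ ∂nu

lemma rep_P {f : (Fin 4 → ℤ) → ℝ} {ψ : (Fin 4 → ℝ) → ℂ} (h : Rep f ψ) :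
    Rep (P v w f) (fun θ => phi v w θ * ψ θ) := by
  refine ⟨(continuous_phi v w).mul h.1, fun x => ?_⟩
  rw [P_apply]
  push_cast
  simp_rw [h.2, ← integral_const_mul]
  rw [← integral_finsetSum]
  · congr 1
    funext θ
    unfold phi
    rw [Finset.sum_mul, Finset.sum_mul]
    refine Finset.sum_congr rfl fun i _ => ?_
    rw [ch_add]; ring
  · intro i _
    exact integrable_nu (continuous_const.mul (h.1.mul (continuous_ch _)))

lemma rep_Pn {f : (Fin 4 → ℤ) → ℝ} {ψ : (Fin 4 → ℝ) → ℂ} (h : Rep f ψ) (n : ℕ) :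
    Rep (((P v w) ^ n) f) (fun θ => phi v w θ ^ n * ψ θ) := by
  induction n with
  | zero => simpa using h
  | succ n ih =>
    rw [Pn_succ]
    have := rep_P v w ih
    convert this using 2
    ring

lemma rep_sum {κ : Type*} (s : Finset κ) {f : κ → (Fin 4 → ℤ) → ℝ} {ψ : κ → (Fin 4 → ℝ) → ℂ}
    (h : ∀ k ∈ s, Rep (f k) (ψ k)) :
    Rep (fun x => ∑ k ∈ s, f k x) (fun θ => ∑ k ∈ s, ψ k θ) := by
  refine ⟨continuous_finsetSum _ fun k hk => (h k hk).1, fun x => ?_⟩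
  push_cast
  rw [Finset.sum_congr rfl fun k hk => (h k hk).2 x, ← integral_finsetSum]
  · simp_rw [Finset.sum_mul]
  · intro k hk
    exact integrable_nu ((h k hk).1.mul (continuous_ch _))

lemma rep_delta0 : Rep (delta0 : (Fin 4 → ℤ) → ℝ) (fun _ => ((2 * Real.pi : ℂ) ^ 4)⁻¹) := by
  refine ⟨continuous_const, fun x => ?_⟩
  rw [integral_const_mul, integral_ch]
  have : ((2 * Real.pi : ℂ) ^ 4) ≠ 0 := by
    have := Real.pi_ne_zero
    exact pow_ne_zero _ (mul_ne_zero two_ne_zero (by exact_mod_cast this))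
  rw [inv_mul_cancel_left₀ this]

/-- truncated Green function -/
noncomputable def GM (M : ℕ) (x : Fin 4 → ℤ) : ℝ := ∑ m ∈ Finset.range M, g v w m x

lemma rep_GM (M : ℕ) : Rep (GM v w M)
    (fun θ => (∑ m ∈ Finset.range M, phi v w θ ^ m) * ((2 * Real.pi : ℂ) ^ 4)⁻¹) := by
  have := rep_sum (Finset.range M) (f := fun m => g v w m)
    (ψ := fun m θ => phi v w θ ^ m * ((2 * Real.pi : ℂ) ^ 4)⁻¹)
    (fun m _ => rep_Pn v w rep_delta0 m)
  have h2 : (fun x => ∑ m ∈ Finset.range M, g v w m x) = GM v w M := rfl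
  rw [h2] at this
  simpa [Finset.sum_mul] using this

variable {κ : Type*} [Fintype κ] (v' : κ → (Fin 4 → ℤ)) (w' : κ → ℝ)

lemma rep_UGM (N M : ℕ) : Rep (fun x => ∑ b ∈ Finset.range N, ((P v' w') ^ b) (GM v w M) x)
    (fun θ => (∑ b ∈ Finset.range N, phi v' w' θ ^ b) *
      ((∑ m ∈ Finset.range M, phi v w θ ^ m) * ((2 * Real.pi : ℂ) ^ 4)⁻¹)) := by
  have := rep_sum (Finset.range N) (f := fun b => ((P v' w') ^ b) (GM v w M))
    (ψ := fun b θ => phi v' w' θ ^ b *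
      ((∑ m ∈ Finset.range M, phi v w θ ^ m) * ((2 * Real.pi : ℂ) ^ 4)⁻¹))
    (fun b _ => rep_Pn v' w' (rep_GM v w M) b)
  simpa only [Finset.sum_mul] using this

lemma rep_le {f : (Fin 4 → ℤ) → ℝ} {ψ : (Fin 4 → ℝ) → ℂ} (h : Rep f ψ)
    {H : (Fin 4 → ℝ) → ℝ} (hH : Integrable H nu) (hle : ∀ᵐ θ ∂nu, ‖ψ θ‖ ≤ H θ) (x : Fin 4 → ℤ) :
    |f x| ≤ ∫ θ, H θ ∂nu := by
  have h1 : ‖(f x : ℂ)‖ ≤ ∫ θ, H θ ∂nu := by
    rw [h.2 x]
    refine norm_integral_le_of_norm_le hH ?_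
    filter_upwards [hle] with θ hθ
    rw [norm_mul, norm_ch, mul_one]
    exact hθ
  simpa using h1

lemma geom_bound {z : ℂ} (hz : ‖z‖ ≤ 1) (M : ℕ) :
    ‖∑ m ∈ Finset.range M, z ^ m‖ * ‖1 - z‖ ≤ 2 := by
  rw [← norm_mul]
  have : (∑ m ∈ Finset.range M, z ^ m) * (1 - z) = 1 - z ^ M := by
    have := geom_sum_mul_neg z M
    simpa using this
  rw [this]
  calc ‖1 - z ^ M‖ ≤ ‖(1 : ℂ)‖ + ‖z ^ M‖ := norm_sub_le _ _
    _ ≤ 1 + 1 := by
        rw [norm_one, norm_pow]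
        gcongr
        exact pow_le_one₀ (norm_nonneg _) hz
    _ = 2 := by norm_num

lemma norm_phi_le (hw : ∀ i, 0 ≤ w i) (hw1 : ∑ i, w i = 1) (θ : Fin 4 → ℝ) :
    ‖phi v w θ‖ ≤ 1 := by
  unfold phi
  calc _ ≤ ∑ i, ‖(w i : ℂ) * ch (v i) θ‖ := norm_sum_le _ _
    _ = ∑ i, w i := by
        refine Finset.sum_congr rfl fun i _ => ?_
        rw [norm_mul, norm_ch, mul_one, Complex.norm_real, Real.norm_eq_abs, abs_of_nonneg (hw i)]
    _ = 1 := hw1

lemma phi_neg (θ : Fin 4 → ℝ) : phi (fun i => - v i) w θ = (starRingEnd ℂ) (phi v w θ) := by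
  unfold phi
  rw [map_sum]
  refine Finset.sum_congr rfl fun i _ => ?_
  rw [map_mul, Complex.conj_ofReal]
  congr 1
  unfold ch
  rw [map_prod]
  refine Finset.prod_congr rfl fun k _ => ?_
  rw [← Complex.exp_conj]
  congr 1
  simp [Complex.conj_ofReal]

lemma norm_one_sub_phi_neg (θ : Fin 4 → ℝ) :
    ‖1 - phi (fun i => - v i) w θ‖ = ‖1 - phi v w θ‖ := by
  rw [phi_neg, ← Complex.norm_conj (1 - phi v w θ), map_sub, map_one]

end AsympCap
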