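import Mathlib
import Pool.Agent.W_MP_b733c5_pr.Defs
import Pool.Agent.W_MP_b733c5_pr.Fourier

/-!
# The nearest-neighbour walks `μ_t` on `ℤ^4`
-/

open Filter Topology MeasureTheory

namespace AsympCap

lemma single_inj {d : ℕ} {a : ℤ} (ha : a ≠ 0) :
    Function.Injective (fun k : Fin d => (Pi.single k a : Fin d → ℤ)) := by
  intro k l h
  by_contra hne
  have := congrFun h k
  simp only [Pi.single_eq_same, Pi.single_apply, hne, if_false] at this
  exact ha this

lemma sum_nnSteps {M : Type*} [AddCommMonoid M] (d : ℕ) (F : (Fin d → ℤ) → M) :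
    ∑ s : nnSteps d, F s = ∑ k, (F (Pi.single k 1) + F (Pi.single k (-1))) := by
  rw [Finset.sum_coe_sort (nnSteps d) F]
  unfold nnSteps
  rw [Finset.sum_union, Finset.sum_image, Finset.sum_image, Finset.sum_add_distrib]
  · exact fun _ _ _ _ h => single_inj (by norm_num) h
  · exact fun _ _ _ _ h => single_inj (by norm_num) h
  · rw [Finset.disjoint_left]
    intro x hx hx'
    simp only [Finset.mem_image, Finset.mem_univ, true_and] at hx hx'
    obtain ⟨k, rfl⟩ := hx
    obtain ⟨l, hl⟩ := hx'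
    have h1 := congrFun hl l
    simp only [Pi.single_eq_same, Pi.single_apply] at h1
    split_ifs at h1

/-- step vectors -/
def vv : nnSteps 4 → (Fin 4 → ℤ) := fun s => s

/-- the weights `μ_t` -/
noncomputable def mw (t : ℝ) : nnSteps 4 → ℝ := fun s => 1 / 8 + t / 2 * (s.1 0 : ℝ)

/-- the function whose restriction to the steps is `mw t` -/
noncomputable def mwF (t : ℝ) (x : Fin 4 → ℤ) : ℝ := 1 / 8 + t / 2 * (x 0 : ℝ)

lemma sum_mw {M : Type*} [AddCommMonoid M] [Module ℝ M] (t : ℝ) (F : (Fin 4 → ℤ) → M) :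
    ∑ s : nnSteps 4, mw t s • F s =
      ∑ k, (mwF t (Pi.single k 1) • F (Pi.single k 1) +
        mwF t (Pi.single k (-1)) • F (Pi.single k (-1))) := by
  have := sum_nnSteps 4 (fun x => mwF t x • F x)
  rw [← this]
  rfl

lemma mw_mem (t : ℝ) (ht : |t| < 1 / 4) : mw t ∈ Delta (nnSteps 4) := by
  rw [abs_lt] at ht
  constructor
  · intro s
    have hs : s.1 0 = 1 ∨ s.1 0 = -1 ∨ s.1 0 = 0 := by
      have := s.2
      unfold nnSteps at this
      simp only [Finset.mem_union, Finset.mem_image, Finset.mem_univ, true_and] at this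
      rcases this with ⟨k, hk⟩ | ⟨k, hk⟩
      · rw [← hk, Pi.single_apply]; split_ifs <;> simp
      · rw [← hk, Pi.single_apply]; split_ifs <;> simp
    unfold mw
    rcases hs with h | h | h <;> rw [h] <;> push_cast <;> linarith
  · have := sum_mw t (fun _ => (1 : ℝ))
    simp only [smul_eq_mul, mul_one] at this
    rw [this]
    have h1 : (0 : Fin 4) ≠ 1 := by decide
    have h2 : (0 : Fin 4) ≠ 2 := by decide
    have h3 : (0 : Fin 4) ≠ 3 := by decide
    simp only [mwF, Fin.sum_univ_four, Pi.single_apply, h1, h2, h3, if_true, if_false]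
    push_cast
    ring

lemma mw_nonneg (t : ℝ) (ht : |t| < 1 / 4) : ∀ i, 0 ≤ mw t i := fun i => ((mw_mem t ht).1 i).le
lemma mw_sum (t : ℝ) (ht : |t| < 1 / 4) : ∑ i, mw t i = 1 := (mw_mem t ht).2

lemma ch_single (k : Fin 4) (a : ℤ) (θ : Fin 4 → ℝ) :
    ch (Pi.single k a) θ = Complex.exp ((a : ℂ) * (θ k : ℂ) * Complex.I) := by
  unfold ch
  rw [Finset.prod_eq_single k]
  · simp
  · intro l _ hl
    rw [Pi.single_eq_of_ne hl]
    simp
  · simp

lemma phi_mw (t : ℝ) (θ : Fin 4 → ℝ) :
    phi vv (mw t) θ = (((1 / 4) * ∑ k, Real.cos (θ k) : ℝ) : ℂ) +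
      ((t * Real.sin (θ 0) : ℝ) : ℂ) * Complex.I := by
  have h := sum_mw t (fun x => ch x θ)
  have h2 : phi vv (mw t) θ = ∑ s : nnSteps 4, mw t s • ch (s : Fin 4 → ℤ) θ := by
    unfold phi vv
    exact Finset.sum_congr rfl fun i _ => by rw [Complex.real_smul]
  have e1 : ∀ y : ℝ, Complex.exp ((y : ℂ) * Complex.I) = (Real.cos y : ℂ) + (Real.sin y : ℂ) * Complex.I := by
    intro y
    rw [Complex.exp_mul_I, Complex.ofReal_cos, Complex.ofReal_sin]
  have e2 : ∀ y : ℝ, Complex.exp (-(y : ℂ) * Complex.I) = (Real.cos y : ℂ) - (Real.sin y : ℂ) * Complex.I := by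
    intro y
    have := e1 (-y)
    rw [Real.cos_neg, Real.sin_neg] at this
    push_cast at this ⊢
    rw [this]; ring
  rw [h2, h]
  simp only [ch_single, mwF, Fin.sum_univ_four, Complex.real_smul]
  simp only [Pi.single_apply]
  push_cast
  simp only [one_mul, neg_one_mul, e1, e2]
  norm_num
  ring

end AsympCap
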