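import Mathlib
import Pool.Agent.W_MP_b733c5_pr.Simple

/-!
# Quantitative bounds for the Green functions of the walks `μ_t`
-/

open Filter Topology MeasureTheory

namespace AsympCap

/-- one-dimensional majorant -/
noncomputable def m1 (y : ℝ) : ℝ := (|y| / Real.pi) ^ (-(7 / 8) : ℝ)

lemma m1_nonneg (y : ℝ) : 0 ≤ m1 y := by
  unfold m1; have := Real.pi_pos; positivity

lemma integrable_m1 : Integrable m1 mu1 := by
  have hpi := Real.pi_pos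
  have h0 : IntervalIntegrable (fun x : ℝ => x ^ (-(7 / 8) : ℝ)) volume 0 1 :=
    intervalIntegral.intervalIntegrable_rpow' (by norm_num)
  have h1 : IntervalIntegrable m1 volume 0 Real.pi := by
    have h2 : IntervalIntegrable (fun x : ℝ => (x / Real.pi) ^ (-(7 / 8) : ℝ)) volume 0 Real.pi := by
      have := h0.comp_mul_left (c := Real.pi⁻¹)
      simp only [zero_div, one_div, inv_inv] at this
      refine this.congr ?_
      intro x _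
      simp only [div_eq_inv_mul]
    refine h2.congr ?_
    rw [Set.uIoc_of_le hpi.le]
    intro x hx
    unfold m1
    simp only [abs_of_pos hx.1]
  have h3 : IntervalIntegrable m1 volume (-Real.pi) 0 := by
    have := h1.comp_sub_left 0
    simp only [sub_zero, zero_sub] at this
    refine this.symm.congr ?_
    intro x _
    simp [m1]
  have h4 := h3.trans h1
  rw [intervalIntegrable_iff_integrableOn_Ioc_of_le (by linarith)] at h4
  exact h4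

/-- the majorant -/
noncomputable def MM (θ : Fin 4 → ℝ) : ℝ := ∏ k, m1 (θ k)

lemma integrable_MM : Integrable MM nu :=
  Integrable.fintype_prod (f := fun (_ : Fin 4) y => m1 y) (fun _ => integrable_m1)

lemma MM_nonneg (θ : Fin 4 → ℝ) : 0 ≤ MM θ := Finset.prod_nonneg fun _ _ => m1_nonneg _

/-- almost every point is in the box and has nonzero coordinates -/
lemma ae_nu : ∀ᵐ θ ∂nu, ∀ k, θ k ≠ 0 ∧ |θ k| ≤ Real.pi := by
  rw [ae_all_iff]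
  intro k
  have h1 : ∀ᵐ y ∂mu1, y ≠ 0 ∧ |y| ≤ Real.pi := by
    unfold mu1
    have h2 : ∀ᵐ y ∂(volume.restrict (Set.Ioc (-Real.pi) Real.pi)), y ∈ Set.Ioc (-Real.pi) Real.pi :=
      ae_restrict_mem measurableSet_Ioc
    have h3 : ∀ᵐ y ∂(volume.restrict (Set.Ioc (-Real.pi) Real.pi)), y ≠ 0 :=
      ae_restrict_of_ae (Measure.ae_ne volume 0)
    filter_upwards [h2, h3] with y hy hy0
    exact ⟨hy0, abs_le.2 ⟨hy.1.le, hy.2⟩⟩
  have := (Measure.quasiMeasurePreserving_eval (μ := fun _ : Fin 4 => mu1) k).ae h1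
  exact this

section pointwise

variable {θ : Fin 4 → ℝ} {t : ℝ}

/-- `Q = ∑ sin²(θ_k / 2)` -/
noncomputable def QQ (θ : Fin 4 → ℝ) : ℝ := ∑ k, Real.sin (θ k / 2) ^ 2

lemma normSq_eq (t : ℝ) (θ : Fin 4 → ℝ) : ‖1 - phi vv (mw t) θ‖ ^ 2 =
    QQ θ ^ 2 / 4 + t ^ 2 * Real.sin (θ 0) ^ 2 := by
  rw [phi_mw]
  have h1 : (1 : ℂ) - ((((1 / 4) * ∑ k, Real.cos (θ k) : ℝ) : ℂ) +
      ((t * Real.sin (θ 0) : ℝ) : ℂ) * Complex.I) =
      ((1 - (1 / 4) * ∑ k, Real.cos (θ k) : ℝ) : ℂ) + ((-(t * Real.sin (θ 0)) : ℝ) : ℂ) * Complex.I := by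
    push_cast; ring
  rw [h1, ← Complex.normSq_eq_norm_sq, Complex.normSq_add_mul_I]
  have h2 : (1 - (1 / 4) * ∑ k, Real.cos (θ k) : ℝ) = QQ θ / 2 := by
    unfold QQ
    have : ∀ y : ℝ, Real.cos y = 1 - 2 * Real.sin (y / 2) ^ 2 := by
      intro y
      have := Real.cos_two_mul (y / 2)
      rw [mul_div_cancel₀ _ two_ne_zero] at this
      rw [this, Real.cos_sq']; ring
    simp_rw [this]
    simp only [Fin.sum_univ_four]
    ring
  rw [h2]; ring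

lemma QQ_nonneg (θ : Fin 4 → ℝ) : 0 ≤ QQ θ := Finset.sum_nonneg fun _ _ => sq_nonneg _

lemma sin_sq_le_QQ (θ : Fin 4 → ℝ) (k : Fin 4) : Real.sin (θ k / 2) ^ 2 ≤ QQ θ :=
  Finset.single_le_sum (f := fun k => Real.sin (θ k / 2) ^ 2) (fun _ _ => sq_nonneg _)
    (Finset.mem_univ k)

lemma normSq_ge_Q (t : ℝ) (θ : Fin 4 → ℝ) : QQ θ ^ 2 / 4 ≤ ‖1 - phi vv (mw t) θ‖ ^ 2 := by
  rw [normSq_eq]
  have : 0 ≤ t ^ 2 * Real.sin (θ 0) ^ 2 := by positivity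
  linarith

lemma norm_ge_Q (t : ℝ) (θ : Fin 4 → ℝ) : QQ θ / 2 ≤ ‖1 - phi vv (mw t) θ‖ := by
  have := normSq_ge_Q t θ
  have h0 := QQ_nonneg θ
  refine le_of_sq_le_sq ?_ (norm_nonneg _)
  calc (QQ θ / 2) ^ 2 = QQ θ ^ 2 / 4 := by ring
    _ ≤ _ := this

lemma normSq_ge_t (ht : |t| < 1 / 4) (θ : Fin 4 → ℝ) :
    4 * t ^ 2 * Real.sin (θ 0 / 2) ^ 2 ≤ ‖1 - phi vv (mw t) θ‖ ^ 2 := by
  rw [normSq_eq]
  have h1 : Real.sin (θ 0) ^ 2 = 4 * Real.sin (θ 0 / 2) ^ 2 * (1 - Real.sin (θ 0 / 2) ^ 2) := by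
    have := Real.sin_two_mul (θ 0 / 2)
    rw [mul_div_cancel₀ _ two_ne_zero] at this
    rw [this, ← Real.cos_sq']; ring
  rw [h1]
  have h2 := sin_sq_le_QQ θ 0
  set s := Real.sin (θ 0 / 2) ^ 2 with hs
  have hs0 : 0 ≤ s := sq_nonneg _
  have ht2 : t ^ 2 ≤ 1 / 16 := by
    rw [← sq_abs]; nlinarith [abs_nonneg t]
  have : s ^ 2 ≤ QQ θ ^ 2 := by gcongr
  nlinarith [sq_nonneg s, mul_le_mul_of_nonneg_right ht2 (sq_nonneg s)]

lemma sin_half_ge (y : ℝ) (hy : |y| ≤ Real.pi) : |y| / Real.pi ≤ |Real.sin (y / 2)| := by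
  have h1 := Real.mul_le_sin (x := |y| / 2) (by positivity) (by linarith)
  have h2 : |Real.sin (y / 2)| = |Real.sin (|y| / 2)| := by
    rcases abs_cases y with ⟨h, _⟩ | ⟨h, _⟩
    · rw [h]
    · rw [h, neg_div, Real.sin_neg, abs_neg]
  rw [h2]
  refine le_trans ?_ (le_abs_self _)
  refine le_trans (le_of_eq ?_) h1
  field_simp

end pointwise

lemma rpow_78_pow (a : ℝ) (ha : 0 < a) : (a ^ (7 / 8 : ℝ)) ^ 8 = a ^ 7 := by
  rw [← Real.rpow_natCast, ← Real.rpow_mul ha.le, ← Real.rpow_natCast]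
  norm_num

lemma prod_le_of_a {a : Fin 4 → ℝ} (ha : ∀ k, 0 < a k) (ha1 : ∀ k, a k ≤ 1) {Q : ℝ}
    (hQ : ∀ k, a k ^ 2 ≤ Q) : ∏ k, a k ^ (7 / 8 : ℝ) ≤ Q := by
  have hQ0 : 0 ≤ Q := (sq_nonneg _).trans (hQ 0)
  refine le_of_pow_le_pow_left₀ (n := 8) (by norm_num) hQ0 ?_
  rw [← Finset.prod_pow]
  simp_rw [fun k => rpow_78_pow (a k) (ha k)]
  calc ∏ k, a k ^ 7 ≤ ∏ k, a k ^ 4 := Finset.prod_le_prod (fun k _ => by have := ha k; positivity)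
        fun k _ => pow_le_pow_of_le_one (ha k).le (ha1 k) (by norm_num)
    _ ≤ ∏ k : Fin 4, Q ^ 2 := Finset.prod_le_prod (fun k _ => by have := ha k; positivity)
        fun k _ => by
          calc a k ^ 4 = (a k ^ 2) ^ 2 := by ring
            _ ≤ Q ^ 2 := by gcongr; exact hQ k
    _ = Q ^ 8 := by simp; ring

lemma prod_le_of_b {a : Fin 4 → ℝ} (ha : ∀ k, 0 < a k) {Q R t : ℝ} (ht : 0 < t)
    (hQ : ∀ k, a k ^ 2 ≤ Q) (hR1 : Q ^ 2 / 4 ≤ R) (hR2 : 4 * t ^ 2 * a 0 ^ 2 ≤ R) :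
    t ^ (1 / 2 : ℝ) * ∏ k, a k ^ (7 / 8 : ℝ) ≤ 2 * R := by
  have hQ0 : 0 ≤ Q := (sq_nonneg _).trans (hQ 0)
  have hR0 : 0 ≤ R := le_trans (by positivity) hR1
  refine le_of_pow_le_pow_left₀ (n := 8) (by norm_num) (by positivity) ?_
  rw [mul_pow, ← Finset.prod_pow]
  simp_rw [fun k => rpow_78_pow (a k) (ha k)]
  have e1 : (t ^ (1 / 2 : ℝ)) ^ 8 = t ^ 4 := by
    rw [← Real.rpow_natCast, ← Real.rpow_mul ht.le, ← Real.rpow_natCast]
    norm_num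
  rw [e1]
  set q := Real.sqrt Q with hq
  have hq2 : q ^ 2 = Q := Real.sq_sqrt hQ0
  have hq0 : 0 ≤ q := Real.sqrt_nonneg _
  have haq : ∀ k, a k ≤ q := fun k => Real.le_sqrt_of_sq_le (hQ k)
  have h6 : (q ^ 4 / 4) ^ 6 ≤ R ^ 6 := by
    gcongr
    calc q ^ 4 / 4 = (q ^ 2) ^ 2 / 4 := by ring
      _ ≤ R := by rw [hq2]; exact hR1
  have h2 : (4 * t ^ 2 * a 0 ^ 2) ^ 2 ≤ R ^ 2 := by
    gcongr
  have h3 : a 0 ^ 3 * (a 1 ^ 7 * a 2 ^ 7 * a 3 ^ 7) ≤ q ^ 3 * (q ^ 7 * q ^ 7 * q ^ 7) := by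
    have h0 := (ha 0).le
    have h1 := (ha 1).le
    have h2 := (ha 2).le
    have h3 := (ha 3).le
    gcongr <;> exact haq _
  have ha0 := (ha 0).le
  calc t ^ 4 * ∏ k, a k ^ 7 = 256 * ((a 0 ^ 3 * (a 1 ^ 7 * a 2 ^ 7 * a 3 ^ 7) / 4096) *
        (4 * t ^ 2 * a 0 ^ 2) ^ 2) := by
        simp only [Fin.prod_univ_four]; ring
    _ ≤ 256 * ((q ^ 3 * (q ^ 7 * q ^ 7 * q ^ 7) / 4096) * (4 * t ^ 2 * a 0 ^ 2) ^ 2) := by
        gcongr
    _ = 256 * ((q ^ 4 / 4) ^ 6 * (4 * t ^ 2 * a 0 ^ 2) ^ 2) := by ring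
    _ ≤ 256 * (R ^ 6 * R ^ 2) := by gcongr
    _ = (2 * R) ^ 8 := by ring

lemma MM_eq (θ : Fin 4 → ℝ) :
    MM θ = (∏ k, (|θ k| / Real.pi) ^ (7 / 8 : ℝ))⁻¹ := by
  unfold MM m1
  rw [← Finset.prod_inv_distrib]
  refine Finset.prod_congr rfl fun k _ => ?_
  rw [Real.rpow_neg (by have := Real.pi_pos; positivity)]

lemma geom_le_MM {t : ℝ} (ht : |t| < 1 / 4) : ∀ᵐ θ ∂nu, ∀ M : ℕ,
    ‖∑ m ∈ Finset.range M, phi vv (mw t) θ ^ m‖ ≤ 4 * MM θ := by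
  filter_upwards [ae_nu] with θ hθ M
  have hpi := Real.pi_pos
  have hb := geom_bound (norm_phi_le vv (mw t) (mw_nonneg t ht) (mw_sum t ht) θ) M
  set a : Fin 4 → ℝ := fun k => |θ k| / Real.pi with ha
  have ha0 : ∀ k, 0 < a k := fun k => div_pos (abs_pos.2 (hθ k).1) hpi
  have ha1 : ∀ k, a k ≤ 1 := fun k => (div_le_one hpi).2 (hθ k).2
  have haQ : ∀ k, a k ^ 2 ≤ QQ θ := fun k => by
    refine le_trans ?_ (sin_sq_le_QQ θ k)
    rw [← sq_abs (Real.sin _)]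
    have := ha0 k
    gcongr
    exact sin_half_ge _ (hθ k).2
  have h1 := prod_le_of_a ha0 ha1 haQ
  have hp : 0 < ∏ k, a k ^ (7 / 8 : ℝ) := Finset.prod_pos fun k _ => Real.rpow_pos_of_pos (ha0 k) _
  have h2 := norm_ge_Q t θ
  rw [MM_eq θ, ← div_eq_mul_inv, le_div_iff₀ hp]
  calc ‖∑ m ∈ Finset.range M, phi vv (mw t) θ ^ m‖ * ∏ k, a k ^ (7 / 8 : ℝ)
      ≤ ‖∑ m ∈ Finset.range M, phi vv (mw t) θ ^ m‖ * (2 * ‖1 - phi vv (mw t) θ‖) := by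
        gcongr
        linarith
    _ ≤ 4 := by linarith

lemma geom2_le_MM {t : ℝ} (ht0 : 0 < t) (ht : t < 1 / 4) : ∀ᵐ θ ∂nu, ∀ {z : ℂ} (M N : ℕ),
    ‖z‖ ≤ 1 → ‖1 - z‖ = ‖1 - phi vv (mw t) θ‖ →
    ‖∑ b ∈ Finset.range N, z ^ b‖ * ‖∑ m ∈ Finset.range M, phi vv (mw t) θ ^ m‖ ≤
      8 * t ^ (-(1 / 2) : ℝ) * MM θ := by
  filter_upwards [ae_nu] with θ hθ z M N hz hz1
  have htabs : |t| < 1 / 4 := by rwa [abs_of_pos ht0]
  have hpi := Real.pi_pos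
  have hb := geom_bound (norm_phi_le vv (mw t) (mw_nonneg t htabs) (mw_sum t htabs) θ) M
  have hb' := geom_bound hz N
  rw [hz1] at hb'
  set a : Fin 4 → ℝ := fun k => |θ k| / Real.pi with ha
  have ha0 : ∀ k, 0 < a k := fun k => div_pos (abs_pos.2 (hθ k).1) hpi
  have haS : ∀ k, a k ^ 2 ≤ Real.sin (θ k / 2) ^ 2 := fun k => by
    rw [← sq_abs (Real.sin _)]
    have := ha0 k
    gcongr
    exact sin_half_ge _ (hθ k).2
  have haQ : ∀ k, a k ^ 2 ≤ QQ θ := fun k => (haS k).trans (sin_sq_le_QQ θ k)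
  have h1 := prod_le_of_b ha0 ht0 haQ (normSq_ge_Q t θ)
    (le_trans (mul_le_mul_of_nonneg_left (haS 0) (by positivity)) (normSq_ge_t htabs θ))
  have hp : 0 < ∏ k, a k ^ (7 / 8 : ℝ) := Finset.prod_pos fun k _ => Real.rpow_pos_of_pos (ha0 k) _
  have htp : 0 < t ^ (1 / 2 : ℝ) := Real.rpow_pos_of_pos ht0 _
  rw [MM_eq θ, Real.rpow_neg ht0.le, mul_assoc, ← mul_inv, ← div_eq_mul_inv,
    le_div_iff₀ (mul_pos htp hp)]
  set A := ‖∑ b ∈ Finset.range N, z ^ b‖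
  set B := ‖∑ m ∈ Finset.range M, phi vv (mw t) θ ^ m‖
  set R := ‖1 - phi vv (mw t) θ‖
  calc A * B * (t ^ (1 / 2 : ℝ) * ∏ k, a k ^ (7 / 8 : ℝ)) ≤ A * B * (2 * R ^ 2) := by
        gcongr
    _ = 2 * ((A * R) * (B * R)) := by ring
    _ ≤ 2 * (2 * 2) := by
        gcongr
    _ = 8 := by norm_num

/-- The constant. -/
noncomputable def CC : ℝ := ∫ θ, MM θ ∂nu

lemma CC_nonneg : 0 ≤ CC := integral_nonneg MM_nonneg

lemma norm_inv_pi_le : ‖((2 * Real.pi : ℂ) ^ 4)⁻¹‖ ≤ 1 := by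
  rw [norm_inv, norm_pow]
  have : ‖(2 * Real.pi : ℂ)‖ = 2 * Real.pi := by
    rw [norm_mul, Complex.norm_real]
    simp [abs_of_pos Real.pi_pos]
  rw [this]
  refine inv_le_one_of_one_le₀ (one_le_pow₀ ?_)
  have := Real.pi_gt_three
  linarith

lemma GM_le {t : ℝ} (ht : |t| < 1 / 4) (M : ℕ) (x : Fin 4 → ℤ) :
    GM vv (mw t) M x ≤ 4 * CC := by
  have h := rep_le (rep_GM vv (mw t) M) (H := fun θ => 4 * MM θ)
    (integrable_MM.const_mul 4) (by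
      filter_upwards [geom_le_MM ht] with θ hθ
      rw [norm_mul]
      calc _ ≤ (4 * MM θ) * 1 := by
            gcongr
            · have := MM_nonneg θ; positivity
            · exact hθ M
            · exact norm_inv_pi_le
        _ = _ := mul_one _) x
  rw [integral_const_mul] at h
  exact (le_abs_self _).trans h

lemma UGM_le {t : ℝ} (ht0 : 0 < t) (ht : t < 1 / 4) {v' : nnSteps 4 → (Fin 4 → ℤ)}
    (hv' : v' = vv ∨ v' = fun i => - vv i) (N M : ℕ) (x : Fin 4 → ℤ) :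
    ∑ b ∈ Finset.range N, ((P v' (mw t)) ^ b) (GM vv (mw t) M) x ≤
      8 * t ^ (-(1 / 2) : ℝ) * CC := by
  have htabs : |t| < 1 / 4 := by rwa [abs_of_pos ht0]
  have htp : 0 ≤ t ^ (-(1 / 2) : ℝ) := (Real.rpow_pos_of_pos ht0 _).le
  have h := rep_le (rep_UGM vv (mw t) v' (mw t) N M) (H := fun θ => 8 * t ^ (-(1 / 2) : ℝ) * MM θ)
    (integrable_MM.const_mul _) (by
      filter_upwards [geom2_le_MM ht0 ht] with θ hθ
      rw [norm_mul, norm_mul, ← mul_assoc]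
      have h1 : ‖phi v' (mw t) θ‖ ≤ 1 :=
        norm_phi_le v' (mw t) (mw_nonneg t htabs) (mw_sum t htabs) θ
      have h2 : ‖1 - phi v' (mw t) θ‖ = ‖1 - phi vv (mw t) θ‖ := by
        rcases hv' with rfl | rfl
        · rfl
        · exact norm_one_sub_phi_neg _ _ _
      calc _ ≤ (8 * t ^ (-(1 / 2) : ℝ) * MM θ) * 1 :=
            mul_le_mul (hθ M N h1 h2) norm_inv_pi_le (norm_nonneg _)
              (by have := MM_nonneg θ; positivity)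
        _ = _ := mul_one _) x
  rw [integral_const_mul] at h
  exact (le_abs_self _).trans h

lemma summable_g {t : ℝ} (ht : |t| < 1 / 4) (x : Fin 4 → ℤ) :
    Summable fun m => g vv (mw t) m x :=
  summable_of_sum_range_le (fun m => g_nonneg vv (mw t) (mw_nonneg t ht) m x)
    (fun M => GM_le ht M x)

lemma Pn_tendsto {V ι : Type*} [AddCommGroup V] [Fintype ι] (v : ι → V) (w : ι → ℝ)
    {F : ℕ → V → ℝ} {f : V → ℝ} (h : ∀ x, Tendsto (fun M => F M x) atTop (𝓝 (f x))) (b : ℕ)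
    (x : V) : Tendsto (fun M => ((P v w) ^ b) (F M) x) atTop (𝓝 (((P v w) ^ b) f x)) := by
  induction b generalizing x with
  | zero => simpa using h x
  | succ b ih =>
    simp_rw [Pn_succ, P_apply]
    exact tendsto_finsetSum _ fun i _ => (ih _).const_mul _

lemma UGr_le {t : ℝ} (ht0 : 0 < t) (ht : t < 1 / 4) {v' : nnSteps 4 → (Fin 4 → ℤ)}
    (hv' : v' = vv ∨ v' = fun i => - vv i) (N : ℕ) (x : Fin 4 → ℤ) :
    ∑ b ∈ Finset.range N, ((P v' (mw t)) ^ b) (Gr vv (mw t)) x ≤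
      8 * t ^ (-(1 / 2) : ℝ) * CC := by
  have htabs : |t| < 1 / 4 := by rwa [abs_of_pos ht0]
  have h : Tendsto (fun M => ∑ b ∈ Finset.range N, ((P v' (mw t)) ^ b) (GM vv (mw t) M) x) atTop
      (𝓝 (∑ b ∈ Finset.range N, ((P v' (mw t)) ^ b) (Gr vv (mw t)) x)) := by
    refine tendsto_finsetSum _ fun b _ => Pn_tendsto _ _ (fun y => ?_) b x
    exact (summable_g htabs y).hasSum.tendsto_sum_nat
  exact le_of_tendsto' h fun M => UGM_le ht0 ht hv' N M x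

end AsympCap
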