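import Mathlib
import Pool.Agent.W_MP_b733c5_pr.Bound

/-!
# Lower bound for the Green function of simple random walk on `ℤ^4`
-/

open Filter Topology MeasureTheory

namespace AsympCap

/-- squared euclidean norm -/
def nsq (x : Fin 4 → ℤ) : ℝ := ∑ k, (x k : ℝ) ^ 2

lemma nsq_nonneg (x : Fin 4 → ℤ) : 0 ≤ nsq x := Finset.sum_nonneg fun _ _ => sq_nonneg _

lemma nsq_add_single (x : Fin 4 → ℤ) (k : Fin 4) (a : ℤ) :
    nsq (x + Pi.single k a) = nsq x + 2 * a * x k + (a : ℝ) ^ 2 := by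
  unfold nsq
  have : ∀ l, (((x + Pi.single k a : Fin 4 → ℤ) l : ℤ) : ℝ) ^ 2 =
      (x l : ℝ) ^ 2 + (if l = k then 2 * a * (x k : ℝ) + (a : ℝ) ^ 2 else 0) := by
    intro l
    rw [Pi.add_apply, Pi.single_apply]
    split_ifs with h
    · subst h; push_cast; ring
    · simp
  simp_rw [this]
  rw [Finset.sum_add_distrib, Finset.sum_ite_eq' Finset.univ k]
  simp [add_assoc]

lemma P_zero_apply (f : (Fin 4 → ℤ) → ℝ) (x : Fin 4 → ℤ) :
    P vv (mw 0) f x = ∑ k, (1 / 8 * f (x + Pi.single k 1) + 1 / 8 * f (x + Pi.single k (-1))) := by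
  have h := sum_mw 0 (fun s => f (x + s))
  have h2 : P vv (mw 0) f x = ∑ s : nnSteps 4, mw 0 s • f (x + (s : Fin 4 → ℤ)) := rfl
  rw [h2, h]
  simp [mwF]

lemma abs_zero_lt : |(0 : ℝ)| < 1 / 4 := by norm_num

lemma Gr_nonneg {t : ℝ} (ht : |t| < 1 / 4) (x : Fin 4 → ℤ) : 0 ≤ Gr vv (mw t) x :=
  tsum_nonneg fun m => g_nonneg vv (mw t) (mw_nonneg t ht) m x

lemma Gr_eq {t : ℝ} (ht : |t| < 1 / 4) (x : Fin 4 → ℤ) :
    Gr vv (mw t) x = delta0 x + P vv (mw t) (Gr vv (mw t)) x := by
  unfold Gr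
  rw [(summable_g ht x).tsum_eq_zero_add]
  congr 1
  have h : HasSum (fun m => g vv (mw t) (m + 1) x)
      (P vv (mw t) (fun z => ∑' m, g vv (mw t) m z) x) := by
    have : ∀ m, g vv (mw t) (m + 1) x = ∑ i, mw t i * g vv (mw t) m (x + vv i) := by
      intro m; unfold g; rw [Pn_succ, P_apply]
    simp_rw [this, P_apply]
    exact hasSum_sum fun i _ => ((summable_g ht (x + vv i)).hasSum).mul_left _
  exact h.tsum_eq

lemma Gr_pos (x : Fin 4 → ℤ) : 0 < Gr vv (mw 0) x := by
  have hstep : ∀ y : Fin 4 → ℤ, ∀ k, 1 / 8 * Gr vv (mw 0) (y + Pi.single k 1) ≤ Gr vv (mw 0) y ∧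
      1 / 8 * Gr vv (mw 0) (y + Pi.single k (-1)) ≤ Gr vv (mw 0) y := by
    intro y k
    have h1 := Gr_eq abs_zero_lt y
    rw [P_zero_apply] at h1
    have h2 : (0 : ℝ) ≤ delta0 y := by unfold delta0; split_ifs <;> norm_num
    have h3 := Finset.single_le_sum (f := fun k => (1 / 8 * Gr vv (mw 0) (y + Pi.single k 1) +
      1 / 8 * Gr vv (mw 0) (y + Pi.single k (-1)))) (fun k _ => by
        have a := Gr_nonneg abs_zero_lt (y + Pi.single k 1)
        have b := Gr_nonneg abs_zero_lt (y + Pi.single k (-1))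
        positivity) (Finset.mem_univ k)
    have a := Gr_nonneg abs_zero_lt (y + Pi.single k 1)
    have b := Gr_nonneg abs_zero_lt (y + Pi.single k (-1))
    constructor <;> linarith
  obtain ⟨n, hn⟩ : ∃ n : ℕ, ∑ k, (x k).natAbs ≤ n := ⟨_, le_rfl⟩
  induction n generalizing x with
  | zero =>
    have hx : x = 0 := by
      funext k
      have : (x k).natAbs ≤ ∑ k, (x k).natAbs :=
        Finset.single_le_sum (f := fun k => (x k).natAbs) (fun _ _ => Nat.zero_le _)
          (Finset.mem_univ k)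
      simp only [Pi.zero_apply]
      omega
    subst hx
    rw [Gr_eq abs_zero_lt]
    have h1 : (delta0 (0 : Fin 4 → ℤ) : ℝ) = 1 := by simp [delta0]
    have h2 : 0 ≤ P vv (mw 0) (Gr vv (mw 0)) 0 := by
      have := Pn_nonneg vv (mw 0) (mw_nonneg 0 abs_zero_lt) 1 (f := Gr vv (mw 0))
        (fun x => Gr_nonneg abs_zero_lt x) 0
      simpa using this
    linarith
  | succ n ih =>
    by_cases hx : x = 0
    · refine ih x ?_
      subst hx; simp
    · obtain ⟨k, hk⟩ : ∃ k, x k ≠ 0 := by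
        by_contra hc
        push Not at hc
        exact hx (funext hc)
      have key : ∀ a : ℤ, (x k + a).natAbs + 1 = (x k).natAbs →
          ∑ l, ((x + Pi.single k a : Fin 4 → ℤ) l).natAbs ≤ n := by
        intro a ha
        have h1 : ∑ l, ((x + Pi.single k a : Fin 4 → ℤ) l).natAbs + 1 = ∑ l, (x l).natAbs := by
          rw [← Finset.add_sum_erase _ _ (Finset.mem_univ k),
            ← Finset.add_sum_erase _ (fun l => (x l).natAbs) (Finset.mem_univ k)]
          have h2 : ∑ l ∈ Finset.univ.erase k, ((x + Pi.single k a : Fin 4 → ℤ) l).natAbs =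
              ∑ l ∈ Finset.univ.erase k, (x l).natAbs := by
            refine Finset.sum_congr rfl fun l hl => ?_
            rw [Pi.add_apply, Pi.single_eq_of_ne (Finset.ne_of_mem_erase hl), add_zero]
          rw [h2, Pi.add_apply, Pi.single_eq_same]
          omega
        omega
      rcases lt_or_gt_of_ne hk with h | h
      · have := ih _ (key 1 (by omega))
        have h2 := (hstep x k).1
        linarith
      · have := ih _ (key (-1) (by omega))
        have h2 := (hstep x k).2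
        linarith

lemma finite_nsq_le (R : ℝ) : {x : Fin 4 → ℤ | nsq x ≤ R}.Finite := by
  obtain ⟨n, hn⟩ := exists_nat_ge R
  refine (Set.finite_Icc (fun _ : Fin 4 => -(n : ℤ)) (fun _ => (n : ℤ))).subset ?_
  intro x hx
  have hx' : nsq x ≤ n := le_trans hx hn
  have h1 : ∀ k, |x k| ≤ (n : ℤ) := by
    intro k
    have h2 : (x k : ℝ) ^ 2 ≤ n := le_trans (Finset.single_le_sum (f := fun k => (x k : ℝ) ^ 2)
      (fun _ _ => sq_nonneg _) (Finset.mem_univ k)) hx'
    have h3 : (x k) ^ 2 ≤ (n : ℤ) := by exact_mod_cast h2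
    by_contra hc
    push Not at hc
    have h4 : |x k| ≤ |x k| ^ 2 := by
      have : 1 ≤ |x k| ∨ |x k| = 0 := by
        have := abs_nonneg (x k); omega
      rcases this with h | h
      · nlinarith
      · rw [h]; norm_num
    rw [sq_abs] at h4
    linarith
  exact ⟨fun k => (abs_le.1 (h1 k)).1, fun k => (abs_le.1 (h1 k)).2⟩

/-- the subharmonic comparison function -/
noncomputable def hh (x : Fin 4 → ℤ) : ℝ := if 3 ≤ nsq x then 1 / (nsq x - 2) else 0

lemma hh_le_one (x : Fin 4 → ℤ) : hh x ≤ 1 := by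
  unfold hh
  split_ifs with h
  · rw [div_le_one (by linarith)]; linarith
  · norm_num

lemma inv_ge {z m : ℝ} (hz : 0 < z) (hm : 0 < m) : 2 / m - z / m ^ 2 ≤ 1 / z := by
  rw [← sub_nonneg]
  have : 1 / z - (2 / m - z / m ^ 2) = (z - m) ^ 2 / (z * m ^ 2) := by
    field_simp
    ring
  rw [this]
  positivity

lemma hh_strict (x : Fin 4 → ℤ) (hx : 8 ≤ nsq x) : hh x < P vv (mw 0) hh x := by
  set N := nsq x with hN
  have hk : ∀ k, (x k : ℝ) ^ 2 ≤ N := fun k => Finset.single_le_sum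
    (f := fun k => (x k : ℝ) ^ 2) (fun _ _ => sq_nonneg _) (Finset.mem_univ k)
  have hab : ∀ k, 2 * |(x k : ℝ)| ≤ N - 2 := by
    intro k
    have h1 := hk k
    rw [← sq_abs] at h1
    nlinarith [abs_nonneg (x k : ℝ), sq_nonneg (|(x k : ℝ)| - 3)]
  have h1 : ∀ k, nsq (x + Pi.single k 1) = N + 2 * x k + 1 := by
    intro k; rw [nsq_add_single]; push_cast; ring
  have h2 : ∀ k, nsq (x + Pi.single k (-1)) = N - 2 * x k + 1 := by
    intro k; rw [nsq_add_single]; push_cast; ring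
  have hle : ∀ k, -(N - 2) ≤ 2 * (x k : ℝ) ∧ 2 * (x k : ℝ) ≤ N - 2 := by
    intro k
    have := hab k
    constructor
    · linarith [neg_abs_le (x k : ℝ)]
    · linarith [le_abs_self (x k : ℝ)]
  have h3 : ∀ k, hh (x + Pi.single k 1) = 1 / (N - 1 + 2 * x k) := by
    intro k
    unfold hh
    rw [if_pos (by rw [h1]; linarith [(hle k).1]), h1]
    congr 1; ring
  have h4 : ∀ k, hh (x + Pi.single k (-1)) = 1 / (N - 1 - 2 * x k) := by
    intro k
    unfold hh
    rw [if_pos (by rw [h2]; linarith [(hle k).2]), h2]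
    congr 1; ring
  have h5 : hh x = 1 / (N - 2) := by
    unfold hh; rw [if_pos (by linarith)]
  rw [P_zero_apply, h5]
  simp_rw [h3, h4]
  have hpos : ∀ k, 0 < (N - 1) ^ 2 - 4 * (x k : ℝ) ^ 2 := by
    intro k
    have := hle k
    nlinarith [this.1, this.2]
  have hm : 0 < (N - 1) ^ 2 - N := by nlinarith
  have h6 : ∀ k, 1 / 8 * (1 / (N - 1 + 2 * (x k : ℝ))) + 1 / 8 * (1 / (N - 1 - 2 * (x k : ℝ))) =
      (N - 1) / 4 * (1 / ((N - 1) ^ 2 - 4 * (x k : ℝ) ^ 2)) := by
    intro k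
    have a := hle k
    have a1 : N - 1 + 2 * (x k : ℝ) ≠ 0 := by linarith [a.1]
    have a2 : N - 1 - 2 * (x k : ℝ) ≠ 0 := by linarith [a.2]
    have a3 := (hpos k).ne'
    have a4 : (N - 1) ^ 2 - 4 * (x k : ℝ) ^ 2 = (N - 1 + 2 * x k) * (N - 1 - 2 * x k) := by ring
    rw [a4]
    field_simp
    ring
  simp_rw [h6]
  rw [← Finset.mul_sum]
  have h7 : 4 / ((N - 1) ^ 2 - N) ≤ ∑ k, 1 / ((N - 1) ^ 2 - 4 * (x k : ℝ) ^ 2) := by
    calc 4 / ((N - 1) ^ 2 - N) = ∑ k, (2 / ((N - 1) ^ 2 - N) -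
          ((N - 1) ^ 2 - 4 * (x k : ℝ) ^ 2) / ((N - 1) ^ 2 - N) ^ 2) := by
          rw [Finset.sum_sub_distrib, ← Finset.sum_div, ← Finset.sum_div,
            Finset.sum_sub_distrib, ← Finset.mul_sum]
          have : ∑ k, (x k : ℝ) ^ 2 = N := rfl
          rw [this]
          simp only [Finset.sum_const, Finset.card_univ, Fintype.card_fin, nsmul_eq_mul]
          field_simp
          push_cast
          ring
      _ ≤ _ := Finset.sum_le_sum fun k _ => inv_ge (hpos k) hm
  calc 1 / (N - 2) < (N - 1) / 4 * (4 / ((N - 1) ^ 2 - N)) := by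
        have e : (N - 1) / 4 * (4 / ((N - 1) ^ 2 - N)) = (N - 1) / ((N - 1) ^ 2 - N) := by
          field_simp
        rw [e, div_lt_div_iff₀ (by linarith) hm]
        nlinarith
    _ ≤ _ := by
        refine mul_le_mul_of_nonneg_left h7 (by linarith)

/-- The lower bound `G(x) ≥ c / (1 + |x|²)`. -/
lemma Gr_lower : ∃ c : ℝ, 0 < c ∧ ∀ x : Fin 4 → ℤ, c / (1 + nsq x) ≤ Gr vv (mw 0) x := by
  obtain ⟨x₁, hx₁, hmin⟩ := (finite_nsq_le 8).toFinset.exists_min_image
    (fun x => Gr vv (mw 0) x) ⟨0, by simp [nsq]⟩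
  set c := Gr vv (mw 0) x₁ with hc
  have hc0 : 0 < c := Gr_pos x₁
  have hin : ∀ y, nsq y ≤ 8 → c ≤ Gr vv (mw 0) y := fun y hy => hmin y (by simpa using hy)
  have key : ∀ y, c * hh y ≤ Gr vv (mw 0) y := by
    by_contra hcon
    push Not at hcon
    obtain ⟨x₀, hx₀⟩ := hcon
    set vf : (Fin 4 → ℤ) → ℝ := fun y => c * hh y - Gr vv (mw 0) y with hvf
    have hv0 : 0 < vf x₀ := by simp only [hvf]; linarith
    have hvle : ∀ y, vf y ≤ c * hh y := fun y => by
      have := Gr_nonneg abs_zero_lt y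
      simp only [hvf]; linarith
    set R : ℝ := 2 + c / vf x₀ with hR
    have hbig : ∀ y, R < nsq y → vf y < vf x₀ := by
      intro y hy
      refine lt_of_le_of_lt (hvle y) ?_
      unfold hh
      split_ifs with h3
      · have hpos : 0 < nsq y - 2 := by linarith
        rw [mul_one_div, div_lt_iff₀ hpos]
        have : c / vf x₀ < nsq y - 2 := by linarith
        rwa [div_lt_iff₀ hv0, mul_comm] at this
      · simpa using hv0
    have hx₀R : nsq x₀ ≤ R := by
      by_contra h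
      exact lt_irrefl _ (hbig x₀ (not_le.1 h))
    obtain ⟨x₂, hx₂, hmax⟩ := (finite_nsq_le R).toFinset.exists_max_image vf
      ⟨x₀, by simpa using hx₀R⟩
    have hglob : ∀ y, vf y ≤ vf x₂ := by
      intro y
      by_cases hy : nsq y ≤ R
      · exact hmax y (by simpa using hy)
      · exact (hbig y (not_le.1 hy)).le.trans (hmax x₀ (by simpa using hx₀R))
    have hx₂pos : 0 < vf x₂ := hv0.trans_le (hglob x₀)
    have h8 : 8 < nsq x₂ := by
      by_contra h
      have h1 := hin x₂ (not_lt.1 h)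
      have h2 := hh_le_one x₂
      have : c * hh x₂ ≤ c := by nlinarith
      simp only [hvf] at hx₂pos
      linarith
    have hP1 : P vv (mw 0) vf x₂ ≤ vf x₂ := by
      calc P vv (mw 0) vf x₂ ≤ P vv (mw 0) (fun _ => vf x₂) x₂ :=
            P_mono _ _ (mw_nonneg 0 abs_zero_lt) hglob x₂
        _ = vf x₂ := P_const _ _ (mw_sum 0 abs_zero_lt) _ _
    have hP2 : P vv (mw 0) vf x₂ = c * P vv (mw 0) hh x₂ - P vv (mw 0) (Gr vv (mw 0)) x₂ := by
      simp only [hvf, P_apply, mul_sub, Finset.sum_sub_distrib, Finset.mul_sum]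
      congr 1
      exact Finset.sum_congr rfl fun i _ => by ring
    have hG : Gr vv (mw 0) x₂ = P vv (mw 0) (Gr vv (mw 0)) x₂ := by
      have h1 := Gr_eq abs_zero_lt x₂
      have h2 : (delta0 x₂ : ℝ) = 0 := by
        unfold delta0
        rw [if_neg]
        rintro rfl
        simp [nsq] at h8
        linarith
      rw [h2, zero_add] at h1
      exact h1
    have hs := hh_strict x₂ h8.le
    have : c * hh x₂ < c * P vv (mw 0) hh x₂ := mul_lt_mul_of_pos_left hs hc0
    simp only [hvf] at hP1 hP2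
    linarith
  refine ⟨c, hc0, fun x => ?_⟩
  by_cases h3 : 3 ≤ nsq x
  · refine le_trans ?_ (key x)
    unfold hh
    rw [if_pos h3, mul_one_div]
    exact div_le_div_of_nonneg_left hc0.le (by linarith) (by linarith)
  · refine le_trans ?_ (hin x (by linarith))
    have := nsq_nonneg x
    exact div_le_self hc0.le (by linarith)

end AsympCap
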