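import Mathlib
import Pool.Agent.W_MP_b733c5_pr.GreenLower
import Pool.Agent.W_MP_b733c5_pr.Meas

/-!
# The expected capacity of the range of `μ_t`
-/

open Filter Topology MeasureTheory

namespace AsympCap

/-- Green potential of the local times -/
noncomputable def DD (t : ℝ) (n : ℕ) (ω : ℕ → Fin 4 → ℤ) (y : Fin 4 → ℤ) : ℝ :=
  ∑ i ∈ Finset.range (n + 1), Gr vv (mw t) (X ω i - y)

lemma DD_nonneg {t : ℝ} (ht : |t| < 1 / 4) (n : ℕ) (ω : ℕ → Fin 4 → ℤ) (y : Fin 4 → ℤ) :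
    0 ≤ DD t n ω y := Finset.sum_nonneg fun _ _ => Gr_nonneg ht _

lemma mem_walkRange (ω : ℕ → Fin 4 → ℤ) (n : ℕ) {i : ℕ} (hi : i ∈ Finset.range (n + 1)) :
    X ω i ∈ walkRange ω n := by
  unfold walkRange
  rw [Finset.mem_image]
  exact ⟨i, hi, by rw [walk_eq, zero_add]⟩

lemma sum_DD {t : ℝ} (ht : |t| < 1 / 4) (n : ℕ) (ω : ℕ → Fin 4 → ℤ) :
    ∑ y ∈ walkRange ω n, DD t n ω y * esc vv (mw t) (walkRange ω n) y = n + 1 := by
  unfold DD
  simp_rw [Finset.sum_mul]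
  rw [Finset.sum_comm]
  have : ∀ i ∈ Finset.range (n + 1), ∑ y ∈ walkRange ω n,
      Gr vv (mw t) (X ω i - y) * esc vv (mw t) (walkRange ω n) y = 1 := by
    intro i hi
    exact one_le_last_exit vv (mw t) _ (mw_nonneg t ht) (mw_sum t ht) (fun z => summable_g ht z)
      (mem_walkRange ω n hi)
  rw [Finset.sum_congr rfl this]
  simp

lemma sum_walkRange_le (ω : ℕ → Fin 4 → ℤ) (n : ℕ) {f : (Fin 4 → ℤ) → ℝ} (hf : ∀ y, 0 ≤ f y) :
    ∑ y ∈ walkRange ω n, f y ≤ ∑ j ∈ Finset.range (n + 1), f (X ω j) := by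
  have h1 : walkRange ω n = (Finset.range (n + 1)).image (X ω) := by
    unfold walkRange
    refine Finset.image_congr fun k _ => ?_
    rw [walk_eq, zero_add]
  rw [h1]
  classical
  rw [← Finset.sum_fiberwise_of_maps_to (s := Finset.range (n + 1)) (g := X ω)
    (fun i hi => Finset.mem_image_of_mem _ hi) (fun j => f (X ω j))]
  refine Finset.sum_le_sum fun y hy => ?_
  obtain ⟨i, hi, rfl⟩ := Finset.mem_image.1 hy
  exact Finset.single_le_sum (f := fun j => f (X ω j)) (fun _ _ => hf _)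
    (Finset.mem_filter.2 ⟨hi, rfl⟩)

lemma cap_eq {t : ℝ} (ht : |t| < 1 / 4) (A : Finset (Fin 4 → ℤ)) :
    capacity (mw t) A = ∑ x ∈ A, esc vv (mw t) A x := capacity_eq (mw_mem t ht) A

/-! ### the lower bound -/

lemma det_lower {t : ℝ} (ht : |t| < 1 / 4) {K : ℝ} (hK : 0 < K) (n : ℕ) (ω : ℕ → Fin 4 → ℤ) :
    (n + 1 : ℝ) ≤ K * capacity (mw t) (walkRange ω n) +
      1 / (4 * K) * ∑ j ∈ Finset.range (n + 1), DD t n ω (X ω j) ^ 2 := by
  rw [← sum_DD ht n ω, cap_eq ht]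
  have h1 : ∑ y ∈ walkRange ω n, DD t n ω y * esc vv (mw t) (walkRange ω n) y ≤
      ∑ y ∈ walkRange ω n, (K * esc vv (mw t) (walkRange ω n) y + 1 / (4 * K) * DD t n ω y ^ 2) := by
    refine Finset.sum_le_sum fun y _ => ?_
    have he0 := esc_nonneg vv (mw t) (walkRange ω n) (mw_nonneg t ht) y
    have he1 := esc_le_one vv (mw t) (walkRange ω n) (mw_nonneg t ht) y
    set e := esc vv (mw t) (walkRange ω n) y
    set D := DD t n ω y
    have h2 : D ≤ K + 1 / (4 * K) * D ^ 2 := by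
      have : K + 1 / (4 * K) * D ^ 2 - D = (2 * K - D) ^ 2 / (4 * K) := by
        field_simp
        ring
      have h3 : 0 ≤ (2 * K - D) ^ 2 / (4 * K) := by positivity
      linarith
    have h3 : 0 ≤ 1 / (4 * K) * D ^ 2 := by positivity
    nlinarith
  refine h1.trans ?_
  rw [Finset.sum_add_distrib, ← Finset.mul_sum, ← Finset.mul_sum]
  have := sum_walkRange_le ω n (f := fun y => DD t n ω y ^ 2) (fun y => sq_nonneg _)
  gcongr

lemma DD_split {t : ℝ} (ht : |t| < 1 / 4) {n j : ℕ} (hj : j ≤ n) (ω : ℕ → Fin 4 → ℤ) :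
    DD t n ω (X ω j) ≤ Qf (fun x => Gr vv (mw t) (-x)) j 0 ω +
      Wf (Gr vv (mw t)) (n - j) 0 (fun i => ω (i + j)) := by
  unfold DD Qf Wf
  have h1 : n + 1 = j + (n - j + 1) := by omega
  rw [h1, Finset.sum_range_add]
  refine add_le_add ?_ (le_of_eq ?_)
  · rw [Finset.sum_range_succ]
    have : ∀ i ∈ Finset.range j, Gr vv (mw t) (X ω i - X ω j) =
        Gr vv (mw t) (-(0 + (X ω j - X ω i))) := by
      intro i _; congr 1; abel
    rw [Finset.sum_congr rfl this]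
    have := Gr_nonneg ht (-(0 + (X ω j - X ω j)))
    linarith
  · refine Finset.sum_congr rfl fun k _ => ?_
    rw [X_shift, zero_add]

lemma Pn_neg (t : ℝ) (k : ℕ) (f : (Fin 4 → ℤ) → ℝ) (x : Fin 4 → ℤ) :
    ((P vv (mw t)) ^ k) (fun x => f (-x)) x = ((P (fun i => - vv i) (mw t)) ^ k) f (-x) := by
  induction k generalizing x with
  | zero => simp
  | succ k ih =>
    rw [Pn_succ, Pn_succ, P_apply, P_apply]
    refine Finset.sum_congr rfl fun i _ => ?_
    rw [ih, neg_add]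

/-- bound for the double Green sums -/
noncomputable def BB (t : ℝ) : ℝ := 8 * t ^ (-(1 / 2) : ℝ) * CC

lemma Uf_le {t : ℝ} (ht0 : 0 < t) (ht : t < 1 / 4) (N : ℕ) (x : Fin 4 → ℤ) :
    Uf vv (mw t) (Gr vv (mw t)) N x ≤ BB t :=
  UGr_le ht0 ht (Or.inl rfl) (N + 1) x

lemma Uf_neg_le {t : ℝ} (ht0 : 0 < t) (ht : t < 1 / 4) (N : ℕ) (x : Fin 4 → ℤ) :
    Uf vv (mw t) (fun x => Gr vv (mw t) (-x)) N x ≤ BB t := by
  unfold Uf
  simp_rw [Pn_neg]
  exact UGr_le ht0 ht (Or.inr rfl) (N + 1) (-x)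

lemma one_le_BB {t : ℝ} (ht0 : 0 < t) (ht : t < 1 / 4) : 1 ≤ BB t := by
  have htabs : |t| < 1 / 4 := by rwa [abs_of_pos ht0]
  have h := Uf_le ht0 ht 0 0
  have h1 : Uf vv (mw t) (Gr vv (mw t)) 0 0 = Gr vv (mw t) 0 := by simp [Uf]
  rw [h1, Gr_eq htabs] at h
  have h2 : (delta0 (0 : Fin 4 → ℤ) : ℝ) = 1 := by simp [delta0]
  have h3 : 0 ≤ P vv (mw t) (Gr vv (mw t)) 0 := by
    have := Pn_nonneg vv (mw t) (mw_nonneg t htabs) 1 (f := Gr vv (mw t))
      (fun x => Gr_nonneg htabs x) 0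
    simpa using this
  linarith

lemma E_DD_sq {t : ℝ} (ht0 : 0 < t) (ht : t < 1 / 4) {n j : ℕ} (hj : j ≤ n) :
    E vv (mw t) n (fun ω => DD t n ω (X ω j) ^ 2) ≤ 8 * BB t ^ 2 := by
  have htabs : |t| < 1 / 4 := by rwa [abs_of_pos ht0]
  have hw := mw_nonneg t htabs
  have hw1 := mw_sum t htabs
  have hB := one_le_BB ht0 ht
  have h1 : ∀ ω, DD t n ω (X ω j) ^ 2 ≤
      2 * Qf (fun x => Gr vv (mw t) (-x)) j 0 ω ^ 2 +
      2 * Wf (Gr vv (mw t)) (n - j) 0 (fun i => ω (i + j)) ^ 2 := by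
    intro ω
    have a := DD_split htabs hj ω
    have b := DD_nonneg htabs n ω (X ω j)
    set Q := Qf (fun x => Gr vv (mw t) (-x)) j 0 ω
    set W := Wf (Gr vv (mw t)) (n - j) 0 (fun i => ω (i + j))
    calc DD t n ω (X ω j) ^ 2 ≤ (Q + W) ^ 2 := by gcongr
      _ ≤ 2 * Q ^ 2 + 2 * W ^ 2 := by nlinarith [sq_nonneg (Q - W)]
  refine (E_mono vv (mw t) hw n h1).trans ?_
  rw [E_add, E_mul_left, E_mul_left]
  have h2 : E vv (mw t) n (fun ω => Qf (fun x => Gr vv (mw t) (-x)) j 0 ω ^ 2) ≤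
      2 * BB t * BB t := by
    have hd : Dep j (fun ω => Qf (fun x => Gr vv (mw t) (-x)) j 0 ω ^ 2) := by
      intro ω ω' h
      simp only [Qf_dep (fun x => Gr vv (mw t) (-x)) j 0 ω ω' h]
    rw [E_dep' vv (mw t) hw1 hj hd, E_Qf vv (mw t) (fun x => Gr vv (mw t) (-x)) (fun y => y ^ 2)]
    refine (E_Wf_sq vv (mw t) _ hw hw1 (fun x => Gr_nonneg htabs _)
      (fun N x => Uf_neg_le ht0 ht N x) j 0).trans ?_
    exact mul_le_mul_of_nonneg_left (Uf_neg_le ht0 ht j 0) (by linarith)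
  have h3 : E vv (mw t) n (fun ω => Wf (Gr vv (mw t)) (n - j) 0 (fun i => ω (i + j)) ^ 2) ≤
      2 * BB t * BB t := by
    have e : n = (n - j) + j := by omega
    have := E_shift vv (mw t) hw1 (n - j) j (fun ω => Wf (Gr vv (mw t)) (n - j) 0 ω ^ 2)
    rw [← e] at this
    rw [this]
    refine (E_Wf_sq vv (mw t) _ hw hw1 (fun x => Gr_nonneg htabs _)
      (fun N x => Uf_le ht0 ht N x) (n - j) 0).trans ?_
    exact mul_le_mul_of_nonneg_left (Uf_le ht0 ht (n - j) 0) (by linarith)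
  nlinarith

lemma ECap_lower {t : ℝ} (ht0 : 0 < t) (ht : t < 1 / 4) (n : ℕ) :
    (n + 1 : ℝ) ≤ 8 * BB t ^ 2 * ECap (mw t) n := by
  have htabs : |t| < 1 / 4 := by rwa [abs_of_pos ht0]
  have hw := mw_nonneg t htabs
  have hw1 := mw_sum t htabs
  have hB := one_le_BB ht0 ht
  have hK : 0 < 4 * BB t ^ 2 := by positivity
  have h1 := E_mono vv (mw t) hw n (fun ω => det_lower htabs hK n ω)
  rw [E_const vv (mw t) hw1, E_add, E_mul_left, E_mul_left, E_sum] at h1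
  have h2 : ∑ j ∈ Finset.range (n + 1), E vv (mw t) n (fun ω => DD t n ω (X ω j) ^ 2) ≤
      (n + 1) * (8 * BB t ^ 2) := by
    refine (Finset.sum_le_sum fun j hj => E_DD_sq ht0 ht (n := n) (j := j)
      (by have := Finset.mem_range.1 hj; omega)).trans ?_
    rw [Finset.sum_const, Finset.card_range, nsmul_eq_mul]
    push_cast
    exact le_rfl
  have h3 : 1 / (4 * (4 * BB t ^ 2)) *
      ∑ j ∈ Finset.range (n + 1), E vv (mw t) n (fun ω => DD t n ω (X ω j) ^ 2) ≤ (n + 1) / 2 := by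
    calc _ ≤ 1 / (4 * (4 * BB t ^ 2)) * ((n + 1) * (8 * BB t ^ 2)) := by gcongr
      _ = (n + 1) / 2 := by
        have : BB t ≠ 0 := by linarith
        field_simp
        ring
  have h4 : E vv (mw t) n (fun ω => capacity (mw t) (walkRange ω n)) = ECap (mw t) n := rfl
  rw [h4] at h1
  linarith

lemma CC_pos : 0 < CC := by
  have h := one_le_BB (t := 1 / 8) (by norm_num) (by norm_num)
  unfold BB at h
  by_contra hc
  have h0 : CC = 0 := le_antisymm (not_lt.1 hc) CC_nonneg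
  rw [h0, mul_zero] at h
  linarith

lemma BB_sq {t : ℝ} (ht0 : 0 < t) : BB t ^ 2 = 64 * CC ^ 2 / t := by
  unfold BB
  have : (t ^ (-(1 / 2) : ℝ)) ^ 2 = t⁻¹ := by
    rw [← Real.rpow_natCast, ← Real.rpow_mul ht0.le]
    norm_num
    exact Real.rpow_neg_one t
  rw [mul_pow, mul_pow, this]
  ring

lemma ECap_ge {t : ℝ} (ht0 : 0 < t) (ht : t < 1 / 4) (n : ℕ) :
    t / (512 * CC ^ 2) * (n + 1) ≤ ECap (mw t) n := by
  have h := ECap_lower ht0 ht n
  rw [BB_sq ht0] at h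
  have hC := CC_pos
  have h2 : t / (512 * CC ^ 2) * (8 * (64 * CC ^ 2 / t) * ECap (mw t) n) = ECap (mw t) n := by
    field_simp
    norm_num
  rw [← h2]
  gcongr

/-! ### the upper bound -/

lemma P_nsq (x : Fin 4 → ℤ) : P vv (mw 0) nsq x = nsq x + 1 := by
  rw [P_zero_apply]
  simp_rw [nsq_add_single]
  push_cast
  simp only [Fin.sum_univ_four]
  ring

lemma Pn_nsq (k : ℕ) (x : Fin 4 → ℤ) : ((P vv (mw 0)) ^ k) nsq x = nsq x + k := by
  induction k generalizing x with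
  | zero => simp
  | succ k ih =>
    rw [Pn_succ]
    have : ((P vv (mw 0)) ^ k) nsq = fun y => nsq y + k := funext ih
    rw [this]
    have h2 : P vv (mw 0) (fun y => nsq y + k) x = P vv (mw 0) nsq x + P vv (mw 0) (fun _ => (k : ℝ)) x := by
      simp only [P_apply, mul_add, Finset.sum_add_distrib]
    rw [h2, P_nsq, P_const _ _ (mw_sum 0 abs_zero_lt)]
    push_cast; ring

/-- harmonic numbers `H_m = ∑_{k ≤ m} 1/(k+1)` -/
noncomputable def Hm (m : ℕ) : ℝ := ∑ k ∈ Finset.range (m + 1), 1 / ((k : ℝ) + 1)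

lemma Hm_pos (m : ℕ) : 0 < Hm m :=
  Finset.sum_pos (fun k _ => by positivity) ⟨0, by simp⟩

/-- weighted sum of the squares of the norms -/
noncomputable def Tm (m : ℕ) (ω : ℕ → Fin 4 → ℤ) : ℝ :=
  ∑ k ∈ Finset.range (m + 1), (1 / ((k : ℝ) + 1)) ^ 2 * (1 + nsq (X ω k))

lemma E_Tm (m : ℕ) : E vv (mw 0) m (Tm m) = Hm m := by
  unfold Tm Hm
  rw [E_sum]
  refine Finset.sum_congr rfl fun k hk => ?_
  have hk' : k ≤ m := by have := Finset.mem_range.1 hk; omega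
  rw [E_mul_left]
  have h1 := E_pos vv (mw 0) (mw_sum 0 abs_zero_lt) (fun y => nsq y) m k hk' 0
  have h2 : E vv (mw 0) m (fun ω => 1 + nsq (X ω k)) = 1 + k := by
    rw [E_add, E_const vv (mw 0) (mw_sum 0 abs_zero_lt)]
    simp only [zero_add] at h1
    rw [h1]
    have h3 : ((P vv (mw 0)) ^ k) (fun y => nsq y) 0 = nsq 0 + k := Pn_nsq k 0
    rw [h3]
    simp [nsq]
  rw [h2]
  field_simp
  ring

lemma inv_DD_le {c : ℝ} (hc : 0 < c) (hG : ∀ x : Fin 4 → ℤ, c / (1 + nsq x) ≤ Gr vv (mw 0) x)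
    {n j : ℕ} (hj : j ≤ n) (ω : ℕ → Fin 4 → ℤ) :
    0 < DD 0 n ω (X ω j) ∧
    1 / DD 0 n ω (X ω j) ≤ Tm (n - j) (fun i => ω (i + j)) / (c * Hm (n - j) ^ 2) := by
  set m := n - j with hm
  set ω' : ℕ → Fin 4 → ℤ := fun i => ω (i + j) with hω'
  set W : ℝ := ∑ k ∈ Finset.range (m + 1), 1 / (1 + nsq (X ω' k)) with hW
  have hWpos : 0 < W := Finset.sum_pos (fun k _ => by
    have := nsq_nonneg (X ω' k); positivity) ⟨0, by simp⟩
  have h1 : c * W ≤ DD 0 n ω (X ω j) := by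
    unfold DD
    have e : n + 1 = j + (m + 1) := by omega
    rw [e, Finset.sum_range_add]
    have h2 : c * W ≤ ∑ k ∈ Finset.range (m + 1), Gr vv (mw 0) (X ω (j + k) - X ω j) := by
      rw [hW, Finset.mul_sum]
      refine Finset.sum_le_sum fun k _ => ?_
      rw [← X_shift, mul_one_div]
      exact hG _
    have h3 : 0 ≤ ∑ i ∈ Finset.range j, Gr vv (mw 0) (X ω i - X ω j) :=
      Finset.sum_nonneg fun _ _ => Gr_nonneg abs_zero_lt _
    linarith
  have hHW : Hm m ^ 2 ≤ W * Tm m ω' := by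
    unfold Hm Tm
    rw [hW]
    refine Finset.sum_sq_le_sum_mul_sum_of_sq_le_mul _ ?_ ?_ ?_
    · intro k _
      have := nsq_nonneg (X ω' k); positivity
    · intro k _
      have := nsq_nonneg (X ω' k); positivity
    · intro k _
      have := nsq_nonneg (X ω' k)
      refine le_of_eq ?_
      field_simp
  have hpos : 0 < DD 0 n ω (X ω j) := lt_of_lt_of_le (by positivity) h1
  refine ⟨hpos, ?_⟩
  have hH := Hm_pos m
  calc 1 / DD 0 n ω (X ω j) ≤ 1 / (c * W) := one_div_le_one_div_of_le (by positivity) h1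
    _ ≤ Tm m ω' / (c * Hm m ^ 2) := by
      rw [div_le_div_iff₀ (by positivity) (by positivity)]
      calc 1 * (c * Hm m ^ 2) ≤ c * (W * Tm m ω') := by
            rw [one_mul]; gcongr
        _ = Tm m ω' * (c * W) := by ring

lemma det_upper {ε : ℝ} (hε : 0 < ε) (n : ℕ) (ω : ℕ → Fin 4 → ℤ)
    (hD : ∀ j ≤ n, 0 < DD 0 n ω (X ω j)) :
    capacity (mw 0) (walkRange ω n) ≤ ε / 2 * (n + 1) +
      1 / (2 * ε) * ∑ j ∈ Finset.range (n + 1), 1 / DD 0 n ω (X ω j) := by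
  rw [← sum_DD abs_zero_lt n ω, cap_eq abs_zero_lt, Finset.mul_sum]
  have hDpos : ∀ y ∈ walkRange ω n, 0 < DD 0 n ω y := by
    intro y hy
    unfold walkRange at hy
    obtain ⟨j, hj, rfl⟩ := Finset.mem_image.1 hy
    rw [walk_eq, zero_add]
    exact hD j (by have := Finset.mem_range.1 hj; omega)
  have h1 : ∑ y ∈ walkRange ω n, esc vv (mw 0) (walkRange ω n) y ≤
      ∑ y ∈ walkRange ω n, (ε / 2 * (DD 0 n ω y * esc vv (mw 0) (walkRange ω n) y) +
        1 / (2 * ε) * (1 / DD 0 n ω y)) := by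
    refine Finset.sum_le_sum fun y hy => ?_
    have he0 := esc_nonneg vv (mw 0) (walkRange ω n) (mw_nonneg 0 abs_zero_lt) y
    have he1 := esc_le_one vv (mw 0) (walkRange ω n) (mw_nonneg 0 abs_zero_lt) y
    have hDy := hDpos y hy
    set e := esc vv (mw 0) (walkRange ω n) y
    set D := DD 0 n ω y
    have h2 : 1 ≤ ε / 2 * D + 1 / (2 * ε) * (1 / D) := by
      have : ε / 2 * D + 1 / (2 * ε) * (1 / D) - 1 = (ε * D - 1) ^ 2 / (2 * ε * D) := by
        field_simp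
        ring
      have h3 : 0 ≤ (ε * D - 1) ^ 2 / (2 * ε * D) := by positivity
      linarith
    have h3 : 0 ≤ 1 / (2 * ε) * (1 / D) := by positivity
    nlinarith
  refine h1.trans ?_
  rw [Finset.sum_add_distrib, ← Finset.mul_sum]
  have := sum_walkRange_le ω n (f := fun y => 1 / DD 0 n ω y)
    (fun y => div_nonneg zero_le_one (DD_nonneg abs_zero_lt _ _ _))
  rw [Finset.mul_sum, ← Finset.mul_sum, ← Finset.mul_sum]
  gcongr

lemma ECap_zero_le {c : ℝ} (hc : 0 < c)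
    (hG : ∀ x : Fin 4 → ℤ, c / (1 + nsq x) ≤ Gr vv (mw 0) x) {ε : ℝ} (hε : 0 < ε) (n : ℕ) :
    ECap (mw 0) n ≤ ε / 2 * (n + 1) +
      1 / (2 * ε * c) * ∑ m ∈ Finset.range (n + 1), 1 / Hm m := by
  have hw := mw_nonneg 0 abs_zero_lt
  have hw1 := mw_sum 0 abs_zero_lt
  have h1 : ∀ ω, capacity (mw 0) (walkRange ω n) ≤ ε / 2 * (n + 1) + 1 / (2 * ε) *
      ∑ j ∈ Finset.range (n + 1), 1 / (c * Hm (n - j) ^ 2) * Tm (n - j) (fun i => ω (i + j)) := by
    intro ω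
    refine (det_upper hε n ω (fun j hj => (inv_DD_le hc hG hj ω).1)).trans ?_
    gcongr with j hj
    have hj' : j ≤ n := by have := Finset.mem_range.1 hj; omega
    refine (inv_DD_le hc hG hj' ω).2.trans (le_of_eq ?_)
    ring
  refine (E_mono vv (mw 0) hw n h1).trans ?_
  rw [E_add, E_const vv (mw 0) hw1, E_mul_left, E_sum]
  have h2 : ∀ j ∈ Finset.range (n + 1), E vv (mw 0) n (fun ω => 1 / (c * Hm (n - j) ^ 2) *
      Tm (n - j) (fun i => ω (i + j))) = 1 / c * (1 / Hm (n - j)) := by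
    intro j hj
    have hj' : j ≤ n := by have := Finset.mem_range.1 hj; omega
    rw [E_mul_left]
    have e : n = (n - j) + j := by omega
    have := E_shift vv (mw 0) hw1 (n - j) j (Tm (n - j))
    rw [← e] at this
    rw [this, E_Tm]
    have := (Hm_pos (n - j)).ne'
    field_simp
  rw [Finset.sum_congr rfl h2, ← Finset.mul_sum]
  have h3 : ∑ j ∈ Finset.range (n + 1), 1 / Hm (n - j) =
      ∑ m ∈ Finset.range (n + 1), 1 / Hm m := by
    have := Finset.sum_range_reflect (fun m => 1 / Hm m) (n + 1)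
    simpa using this
  rw [h3]
  refine le_of_eq ?_
  field_simp

lemma Hm_tendsto : Tendsto Hm atTop atTop := by
  have := Real.tendsto_sum_range_one_div_nat_succ_atTop
  exact this.comp (tendsto_add_atTop_nat 1)

lemma ECap_zero_tendsto : Tendsto (fun n : ℕ => ECap (mw 0) n / n) atTop (𝓝 0) := by
  obtain ⟨c, hc, hG⟩ := Gr_lower
  have hces : Tendsto (fun n : ℕ => (n : ℝ)⁻¹ * ∑ m ∈ Finset.range n, 1 / Hm m) atTop (𝓝 0) := by
    refine Filter.Tendsto.cesaro ?_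
    simp only [one_div]
    exact tendsto_inv_atTop_zero.comp Hm_tendsto
  rw [Metric.tendsto_atTop]
  intro δ hδ
  set ε := δ / 4 with hεdef
  have hε : 0 < ε := by positivity
  have h1 : ∀ᶠ n : ℕ in atTop, (n : ℝ)⁻¹ * ∑ m ∈ Finset.range n, 1 / Hm m < ε * c * δ / 4 := by
    have := (hces.eventually (gt_mem_nhds (show (0 : ℝ) < ε * c * δ / 4 by positivity)))
    exact this
  obtain ⟨N, hN⟩ := eventually_atTop.1 h1
  refine ⟨max N 1, fun n hn => ?_⟩
  have hn1 : (1 : ℝ) ≤ n := by exact_mod_cast (le_of_max_le_right hn)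
  have hnN := hN (n + 1) (by have := le_of_max_le_left hn; omega)
  have hub := ECap_zero_le hc hG hε n
  have hnn : 0 ≤ ECap (mw 0) n := by
    unfold ECap
    have := E_mono vv (mw 0) (mw_nonneg 0 abs_zero_lt) n (F := fun _ => 0)
      (G := fun ω => capacity (mw 0) (walkRange ω n)) (fun ω => capacity_nonneg _ _)
    rw [E_const vv (mw 0) (mw_sum 0 abs_zero_lt)] at this
    exact this
  rw [Real.dist_eq, sub_zero, abs_of_nonneg (by positivity), div_lt_iff₀ (by linarith)]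
  have hS : ∑ m ∈ Finset.range (n + 1), 1 / Hm m < ε * c * δ / 4 * (n + 1) := by
    rw [inv_mul_lt_iff₀ (by positivity)] at hnN
    push_cast at hnN
    linarith
  have h5 : 1 / (2 * ε * c) * ∑ m ∈ Finset.range (n + 1), 1 / Hm m <
      1 / (2 * ε * c) * (ε * c * δ / 4 * (n + 1)) := by
    gcongr
  have h6 : 1 / (2 * ε * c) * (ε * c * δ / 4 * (n + 1)) = δ / 8 * (n + 1) := by
    field_simp
    ring
  have h7 : (n : ℝ) + 1 ≤ 2 * n := by linarith
  rw [h6] at h5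
  have h8 : ε / 2 * ((n : ℝ) + 1) = δ / 8 * (n + 1) := by rw [hεdef]; ring
  nlinarith

end AsympCap
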