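import Mathlib
import Pool.Agent.W_MP_b733c5_pr.Main

/-!
# Non-differentiability of the asymptotic capacity at simple random walk
-/

open Filter Topology MeasureTheory

namespace AsympCap

lemma sum_mw_eq_one (t : ℝ) : ∑ s, mw t s = 1 := by
  have := sum_mw t (fun _ => (1 : ℝ))
  simp only [smul_eq_mul, mul_one] at this
  rw [this]
  have h1 : (0 : Fin 4) ≠ 1 := by decide
  have h2 : (0 : Fin 4) ≠ 2 := by decide
  have h3 : (0 : Fin 4) ≠ 3 := by decide
  simp only [mwF, Fin.sum_univ_four, Pi.single_apply, h1, h2, h3, if_true, if_false]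
  push_cast
  ring

lemma chart_mw (s₀ : nnSteps 4) (t : ℝ) :
    chart s₀ (fun s : {s : nnSteps 4 // s ≠ s₀} => mw t s) = mw t := by
  funext s
  unfold chart
  split_ifs with h
  · subst h
    have h1 := sum_mw_eq_one t
    rw [← Finset.add_sum_erase _ _ (Finset.mem_univ s)] at h1
    have h2 : ∑ s' : {s' : nnSteps 4 // s' ≠ s}, mw t s' = ∑ x ∈ Finset.univ.erase s, mw t x := by
      rw [← Finset.sum_subtype (Finset.univ.erase s) (p := fun s' => s' ≠ s)
        (by intro x; simp) (mw t)]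
    rw [h2]
    linarith
  · rfl

/-- A function `g` on `ℝ` which is differentiable at `0`, vanishes there, is nonnegative near `0`,
cannot be bounded below by `κ t` for small `t > 0`. -/
lemma not_diff {g : ℝ → ℝ} {κ : ℝ} (hκ : 0 < κ) (h0 : g 0 = 0)
    (hnn : ∀ t, |t| < 1 / 4 → 0 ≤ g t) (hlow : ∀ t, 0 < t → t < 1 / 4 → κ * t ≤ g t) :
    ¬ DifferentiableAt ℝ g 0 := by
  intro hd
  have hmin : IsLocalMin g 0 := by
    have : ∀ᶠ t : ℝ in 𝓝 0, |t| < 1 / 4 := by
      have := Metric.ball_mem_nhds (0 : ℝ) (show (0 : ℝ) < 1 / 4 by norm_num)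
      filter_upwards [this] with t ht
      simpa [Real.dist_eq] using ht
    filter_upwards [this] with t ht
    rw [h0]
    exact hnn t ht
  have hder : HasDerivAt g 0 0 := by
    have := hd.hasDerivAt
    rwa [hmin.deriv_eq_zero] at this
  have hslope : Tendsto (slope g 0) (𝓝[>] 0) (𝓝 0) :=
    (hasDerivAt_iff_tendsto_slope.1 hder).mono_left (nhdsWithin_mono _ (fun x hx => ne_of_gt hx))
  have h1 : ∀ᶠ t : ℝ in 𝓝[>] 0, κ ≤ slope g 0 t := by
    have h2 : ∀ᶠ t : ℝ in 𝓝[>] 0, t ∈ Set.Ioo (0 : ℝ) (1 / 4) :=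
      Ioo_mem_nhdsGT (by norm_num)
    filter_upwards [h2] with t ht
    rw [slope_def_field, h0, sub_zero, sub_zero, le_div_iff₀ ht.1]
    exact hlow t ht.1 ht.2
  have := ge_of_tendsto hslope h1
  linarith

/-- `c(μ_0) = 0`, `c(μ_t) ≥ κ t`. -/
theorem not_differentiableAt_of_mean {c : (nnSteps 4 → ℝ) → ℝ}
    (hc : ∀ μ ∈ Delta (nnSteps 4), Tendsto (fun n : ℕ => ECap μ n / n) atTop (𝓝 (c μ))) :
    ¬ DifferentiableAt ℝ (fun t => c (mw t)) 0 := by
  have hC := CC_pos
  refine not_diff (κ := 1 / (512 * CC ^ 2)) (by positivity) ?_ ?_ ?_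
  · exact tendsto_nhds_unique (hc (mw 0) (mw_mem 0 abs_zero_lt)) ECap_zero_tendsto
  · intro t ht
    refine ge_of_tendsto' (hc (mw t) (mw_mem t ht)) fun n => ?_
    have := E_mono vv (mw t) (mw_nonneg t ht) n (F := fun _ => 0)
      (G := fun ω => capacity (mw t) (walkRange ω n)) (fun ω => capacity_nonneg _ _)
    rw [E_const vv (mw t) (mw_sum t ht)] at this
    exact div_nonneg this (Nat.cast_nonneg _)
  · intro t ht0 ht
    have htabs : |t| < 1 / 4 := by rwa [abs_of_pos ht0]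
    refine ge_of_tendsto (hc (mw t) (mw_mem t htabs)) ?_
    filter_upwards [eventually_ge_atTop 1] with n hn
    have hn' : (0 : ℝ) < n := by exact_mod_cast hn
    rw [le_div_iff₀ hn']
    refine le_trans ?_ (ECap_ge ht0 ht n)
    have : t / (512 * CC ^ 2) * (n + 1) - 1 / (512 * CC ^ 2) * t * n = t / (512 * CC ^ 2) := by ring
    have h2 : 0 < t / (512 * CC ^ 2) := by positivity
    linarith

lemma differentiableAt_of_analytic {c : (nnSteps 4 → ℝ) → ℝ}
    (h : RealAnalyticOnDelta (nnSteps 4) c) : DifferentiableAt ℝ (fun t => c (mw t)) 0 := by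
  obtain ⟨s₀, hs₀⟩ := h
  have h1 : (fun t => c (mw t)) = (fun a => c (chart s₀ a)) ∘
      (fun t : ℝ => fun s : {s : nnSteps 4 // s ≠ s₀} => mw t s) := by
    funext t
    simp only [Function.comp_apply, chart_mw]
  rw [h1]
  refine DifferentiableAt.comp (0 : ℝ) ?_ ?_
  · refine (hs₀ _ ?_).differentiableAt
    show chart s₀ (fun s : {s : nnSteps 4 // s ≠ s₀} => mw 0 s) ∈ Delta (nnSteps 4)
    rw [chart_mw]
    exact mw_mem 0 abs_zero_lt
  · rw [differentiableAt_pi]
    intro s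
    unfold mw
    fun_prop

end AsympCap
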